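import Pool.Agent.L7h73.AC.Star3

/-!
# Gradings of differential polynomials

`compP w μ` is the weighted homogeneous component of weight `μ : M` of a differential polynomial,
where all derivatives of `v : V` have the weight `w v`; `comp w μ` is the coefficientwise version on
the star ring `S (DP A V)`.
-/

set_option autoImplicit false
set_option linter.unusedSectionVars false

namespace Pool.Agent.L7h73.AC

universe u v w x

open MvPolynomial

attribute [-instance] HahnSeries.powerSeriesAlgebra

section compP
variable {A : Type u} [CommRing A] {V : Type v} {M : Type w} [AddCommMonoid M]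

/-- weighted homogeneous components -/
noncomputable def compP (w : V → M) (μ : M) : DP A V →+ DP A V :=
  (weightedHomogeneousComponent (fun x : V × ℕ × ℕ => w x.1) μ).toAddMonoidHom

/-- the weight of a monomial -/
noncomputable def wt (w : V → M) : (V × ℕ × ℕ →₀ ℕ) →+ M :=
  Finsupp.weight (fun x : V × ℕ × ℕ => w x.1)

theorem coeff_compP [DecidableEq M] (w : V → M) (μ : M) (p : DP A V) (m : V × ℕ × ℕ →₀ ℕ) :
    coeff m (compP w μ p) = if wt w m = μ then coeff m p else 0 :=
  coeff_weightedHomogeneousComponent ..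

theorem wt_single (w : V → M) (x : V × ℕ × ℕ) : wt w (Finsupp.single x 1) = w x.1 := by
  rw [wt, Finsupp.weight_single, one_smul]

theorem compP_ext (w : V → M) {p q : DP A V} (h : ∀ μ, compP w μ p = compP w μ q) : p = q := by
  classical
  ext m
  have := congrArg (coeff m) (h (wt w m))
  rwa [coeff_compP, coeff_compP, if_pos rfl, if_pos rfl] at this

theorem compP_C [DecidableEq M] (w : V → M) (μ : M) (a : A) :
    compP w μ (C a : DP A V) = if μ = 0 then C a else 0 := by
  classical
  ext m
  rw [coeff_compP, coeff_C]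
  by_cases hμ : μ = 0
  · subst hμ
    rw [if_pos rfl, coeff_C]
    by_cases hm : 0 = m
    · subst hm
      rw [if_pos rfl, if_pos (map_zero _)]
    · rw [if_neg hm, ite_self]
  · rw [if_neg hμ, coeff_zero]
    by_cases hm : 0 = m
    · subst hm
      rw [map_zero, if_neg (Ne.symm hμ)]
    · rw [if_neg hm, ite_self]

theorem compP_X [DecidableEq M] (w : V → M) (μ : M) (x : V × ℕ × ℕ) :
    compP w μ (X x : DP A V) = if μ = w x.1 then X x else 0 := by
  classical
  ext m
  rw [coeff_compP, coeff_X]
  by_cases hμ : μ = w x.1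
  · subst hμ
    rw [if_pos rfl, coeff_X]
    by_cases hm : Finsupp.single x 1 = m
    · subst hm
      rw [if_pos rfl, if_pos (wt_single w x)]
    · rw [if_neg hm, ite_self]
  · rw [if_neg hμ, coeff_zero]
    by_cases hm : Finsupp.single x 1 = m
    · subst hm
      rw [wt_single, if_neg (Ne.symm hμ)]
    · rw [if_neg hm, ite_self]

theorem compP_mul [Finset.HasAntidiagonal M] [DecidableEq M] (w : V → M) (μ : M) (p q : DP A V) :
    compP w μ (p * q) =
      ∑ t ∈ Finset.HasAntidiagonal.antidiagonal μ, compP w t.1 p * compP w t.2 q := by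
  classical
  ext m
  rw [coeff_compP, coeff_sum, coeff_mul]
  simp only [coeff_mul, coeff_compP]
  rw [Finset.sum_comm]
  have h : ∀ c ∈ Finset.HasAntidiagonal.antidiagonal m,
      (∑ t ∈ Finset.HasAntidiagonal.antidiagonal μ,
        (if wt w c.1 = t.1 then coeff c.1 p else 0) * (if wt w c.2 = t.2 then coeff c.2 q else 0)) =
      if wt w m = μ then coeff c.1 p * coeff c.2 q else 0 := by
    intro c hc
    have hc' : c.1 + c.2 = m := Finset.HasAntidiagonal.mem_antidiagonal.mp hc
    by_cases hμ : wt w m = μ
    · rw [if_pos hμ, Finset.sum_eq_single (wt w c.1, wt w c.2)]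
      · rw [if_pos rfl, if_pos rfl]
      · intro t _ ht
        by_cases h1 : wt w c.1 = t.1
        · by_cases h2 : wt w c.2 = t.2
          · exact absurd (Prod.ext h1.symm h2.symm) ht
          · rw [if_neg h2, mul_zero]
        · rw [if_neg h1, zero_mul]
      · intro h1
        exfalso
        apply h1
        rw [Finset.HasAntidiagonal.mem_antidiagonal, ← map_add, hc', hμ]
    · rw [if_neg hμ]
      refine Finset.sum_eq_zero fun t ht => ?_
      by_cases h1 : wt w c.1 = t.1
      · by_cases h2 : wt w c.2 = t.2
        · exfalso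
          apply hμ
          rw [← hc', map_add, h1, h2]
          exact Finset.HasAntidiagonal.mem_antidiagonal.mp ht
        · rw [if_neg h2, mul_zero]
      · rw [if_neg h1, zero_mul]
  rw [Finset.sum_congr rfl h]
  split_ifs with hμ
  · rfl
  · rw [Finset.sum_const_zero]

variable [Diff2 A]

theorem compP_d1 [Finset.HasAntidiagonal M] (w : V → M) (μ : M) (p : DP A V) :
    compP w μ (d1 p) = d1 (compP w μ p) := by
  classical
  induction p using MvPolynomial.induction_on generalizing μ with
  | C a =>
    rw [d1_C, compP_C, compP_C]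
    split_ifs <;> simp
  | add p q hp hq => rw [map_add, map_add, map_add, map_add, hp, hq]
  | mul_X p s hp =>
    rw [leib1, map_add, compP_mul, compP_mul, compP_mul, map_sum, ← Finset.sum_add_distrib]
    refine Finset.sum_congr rfl fun t _ => ?_
    rw [leib1, hp, d1_X, compP_X, compP_X]
    congr 2
    split_ifs <;> simp

theorem compP_d2 [Finset.HasAntidiagonal M] (w : V → M) (μ : M) (p : DP A V) :
    compP w μ (d2 p) = d2 (compP w μ p) := by
  classical
  induction p using MvPolynomial.induction_on generalizing μ with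
  | C a =>
    rw [d2_C, compP_C, compP_C]
    split_ifs <;> simp
  | add p q hp hq => rw [map_add, map_add, map_add, map_add, hp, hq]
  | mul_X p s hp =>
    rw [leib2, map_add, compP_mul, compP_mul, compP_mul, map_sum, ← Finset.sum_add_distrib]
    refine Finset.sum_congr rfl fun t _ => ?_
    rw [leib2, hp, d2_X, compP_X, compP_X]
    congr 2
    split_ifs <;> simp

end compP

section comp
variable {A : Type u} [CommRing A] [Algebra ℚ A] [Diff2 A] {V : Type v} {M : Type w}
  [AddCommMonoid M] [Finset.HasAntidiagonal M]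

open S

/-- components on the star ring -/
noncomputable def comp (w : V → M) (μ : M) : S (DP A V) →+ S (DP A V) := S.amap (compP w μ)

@[simp] theorem cf_comp (w : V → M) (μ : M) (z : S (DP A V)) (q : ℚ) :
    cf (comp w μ z) q = compP w μ (cf z q) := rfl

theorem comp_mul (w : V → M) (μ : M) (y z : S (DP A V)) :
    comp w μ (y * z) =
      ∑ t ∈ Finset.HasAntidiagonal.antidiagonal μ, comp w t.1 y * comp w t.2 z := by
  classical
  exact S.amap_mul (Finset.HasAntidiagonal.antidiagonal μ) (compP w μ) (fun t => compP w t.1)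
    (fun t => compP w t.2) (compP_mul w μ) (fun t => compP_d1 w t.1) (fun t => compP_d2 w t.2) y z

theorem comp_ext (w : V → M) {y z : S (DP A V)} (h : ∀ μ, comp w μ y = comp w μ z) : y = z := by
  ext1 q
  exact compP_ext w fun μ => congrArg (fun z => cf z q) (h μ)

/-- `y` is obtained from `z` by the substitution `v ↦ h^(φ v) v` -/
def Rel (w : V → M) (φ : M →+ ℚ) (y z : S (DP A V)) : Prop :=
  ∀ μ, comp w μ y = hp (φ μ) * comp w μ z

variable {w : V → M} {φ : M →+ ℚ}

theorem Rel.zero : Rel w φ (0 : S (DP A V)) 0 := fun μ => by simp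

theorem Rel.add {y y' z z' : S (DP A V)} (h : Rel w φ y z) (h' : Rel w φ y' z') :
    Rel w φ (y + y') (z + z') := fun μ => by
  rw [map_add, map_add, h μ, h' μ, mul_add]

theorem Rel.mul {y y' z z' : S (DP A V)} (h : Rel w φ y z) (h' : Rel w φ y' z') :
    Rel w φ (y * y') (z * z') := fun μ => by
  rw [comp_mul, comp_mul, Finset.mul_sum]
  refine Finset.sum_congr rfl fun t ht => ?_
  have h1 : φ μ = φ t.1 + φ t.2 := by
    rw [← map_add, Finset.HasAntidiagonal.mem_antidiagonal.mp ht]
  rw [h, h', h1, hp_add, mul_assoc, mul_assoc, ← mul_assoc _ (hp (φ t.2)), ← hp_comm, mul_assoc]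

theorem Rel.map_C (z : S A) : Rel w φ (S.map (C : A →+* DP A V) isDiff_C z)
    (S.map (C : A →+* DP A V) isDiff_C z) := fun μ => by
  classical
  ext1 q
  rw [cf_hp_mul, cf_comp, cf_comp, cf_map, cf_map, compP_C, compP_C]
  by_cases hμ : μ = 0
  · rw [hμ, map_zero, sub_zero]
  · rw [if_neg hμ, if_neg hμ]

theorem Rel.sg (γ : ℚ) (x : V × ℕ × ℕ) (hφ : φ (w x.1) = γ) :
    Rel w φ (S.sg γ (X x : DP A V)) (S.sg 0 (X x : DP A V)) := fun μ => by
  classical
  ext1 q
  rw [cf_hp_mul, cf_comp, cf_comp, cf_sg, cf_sg]
  by_cases hμ : μ = w x.1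
  · have h1 : (q = γ) = (q - φ μ = 0) := by
      rw [hμ, hφ]
      exact propext ⟨fun h => by linarith, fun h => by linarith⟩
    simp only [h1]
  · split_ifs <;> simp [compP_X, hμ]

end comp

end Pool.Agent.L7h73.AC
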