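import Mathlib

/-!
# Commutative rings with two commuting derivations, differential polynomials

* `Diff2 B`: two commuting derivations `d1`, `d2` of the commutative ring `B`.
* `DP B V`: the ring of differential polynomials over `B` in the differential indeterminates `v : V`;
  the variable `X (v, i, j)` is `d1^i d2^j v`.
* `DP.lift φ z`: evaluation.
* `Closed A`: every nonconstant differential polynomial in one indeterminate has a zero.
-/

set_option autoImplicit false

namespace Pool.Agent.L7h73.AC

open MvPolynomial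

universe u v w

/-- two commuting derivations -/
class Diff2 (B : Type u) [CommRing B] where
  d1 : B →+ B
  d2 : B →+ B
  leib1 : ∀ a b, d1 (a * b) = d1 a * b + a * d1 b
  leib2 : ∀ a b, d2 (a * b) = d2 a * b + a * d2 b
  comm : ∀ b, d1 (d2 b) = d2 (d1 b)

export Diff2 (d1 d2 leib1 leib2)

section basic
variable {B : Type u} [CommRing B] [Diff2 B]

@[simp] theorem d1_one : d1 (1 : B) = 0 := by
  have := leib1 (1 : B) 1
  simpa using this

@[simp] theorem d2_one : d2 (1 : B) = 0 := by
  have := leib2 (1 : B) 1
  simpa using this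

end basic

/-- A ring homomorphism which commutes with the derivations. -/
structure IsDiff {B : Type u} {B' : Type v} [CommRing B] [Diff2 B] [CommRing B'] [Diff2 B']
    (φ : B →+* B') : Prop where
  d1 : ∀ b, φ (d1 b) = Diff2.d1 (φ b)
  d2 : ∀ b, φ (d2 b) = Diff2.d2 (φ b)

theorem IsDiff.id {B : Type u} [CommRing B] [Diff2 B] : IsDiff (RingHom.id B) :=
  ⟨fun _ => rfl, fun _ => rfl⟩

theorem IsDiff.comp {B : Type u} {B' : Type v} {B'' : Type w} [CommRing B] [Diff2 B]
    [CommRing B'] [Diff2 B'] [CommRing B''] [Diff2 B''] {ψ : B' →+* B''} {φ : B →+* B'}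
    (h : IsDiff ψ) (h' : IsDiff φ) : IsDiff (ψ.comp φ) :=
  ⟨fun b => by simp [h'.d1, h.d1], fun b => by simp [h'.d2, h.d2]⟩

section coef
variable {σ : Type v} {B : Type u} [CommRing B]

/-- apply an additive map to the coefficients of a polynomial -/
noncomputable def coefD (δ : B →+ B) : MvPolynomial σ B →+ MvPolynomial σ B where
  toFun p := ∑ m ∈ p.support, monomial m (δ (coeff m p))
  map_zero' := by simp
  map_add' p q := by
    classical
    have h : ∀ (r : MvPolynomial σ B) (s : Finset (σ →₀ ℕ)), r.support ⊆ s →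
        ∑ m ∈ r.support, monomial m (δ (coeff m r)) = ∑ m ∈ s, monomial m (δ (coeff m r)) := by
      intro r s hs
      refine Finset.sum_subset hs fun m _ hm => ?_
      rw [notMem_support_iff.mp hm, map_zero, map_zero]
    rw [h (p + q) (p.support ∪ q.support) support_add,
      h p (p.support ∪ q.support) Finset.subset_union_left,
      h q (p.support ∪ q.support) Finset.subset_union_right, ← Finset.sum_add_distrib]
    refine Finset.sum_congr rfl fun m _ => ?_
    rw [coeff_add, map_add, map_add]

@[simp] theorem coeff_coefD (δ : B →+ B) (p : MvPolynomial σ B) (m : σ →₀ ℕ) :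
    coeff m (coefD δ p) = δ (coeff m p) := by
  classical
  change coeff m (∑ m ∈ p.support, monomial m (δ (coeff m p))) = _
  rw [coeff_sum]
  simp only [coeff_monomial]
  rw [Finset.sum_ite_eq']
  split_ifs with h
  · rfl
  · rw [notMem_support_iff.mp h, map_zero]

@[simp] theorem coefD_C (δ : B →+ B) (b : B) : coefD (σ := σ) δ (C b) = C (δ b) := by
  classical
  ext m
  rw [coeff_coefD, coeff_C, coeff_C]
  split_ifs <;> simp

@[simp] theorem coefD_monomial (δ : B →+ B) (m : σ →₀ ℕ) (b : B) :
    coefD δ (monomial m b) = monomial m (δ b) := by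
  classical
  ext m'
  rw [coeff_coefD, coeff_monomial, coeff_monomial]
  split_ifs <;> simp

theorem coefD_leib (δ : B →+ B) (hδ : ∀ a b, δ (a * b) = δ a * b + a * δ b)
    (p q : MvPolynomial σ B) : coefD δ (p * q) = coefD δ p * q + p * coefD δ q := by
  classical
  ext m
  rw [coeff_coefD, coeff_add, coeff_mul, coeff_mul, coeff_mul, map_sum, ← Finset.sum_add_distrib]
  refine Finset.sum_congr rfl fun x _ => ?_
  rw [hδ, coeff_coefD, coeff_coefD]

/-- The derivation of the polynomial ring which is `δ` on the coefficients and sends the variable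
`X s` to `f s`. -/
noncomputable def polyD (δ : B →+ B) (f : σ → MvPolynomial σ B) :
    MvPolynomial σ B →+ MvPolynomial σ B :=
  coefD δ + (mkDerivation B f).toLinearMap.toAddMonoidHom

theorem polyD_apply (δ : B →+ B) (f : σ → MvPolynomial σ B) (p : MvPolynomial σ B) :
    polyD δ f p = coefD δ p + mkDerivation B f p := rfl

theorem polyD_leib (δ : B →+ B) (hδ : ∀ a b, δ (a * b) = δ a * b + a * δ b)
    (f : σ → MvPolynomial σ B) (p q : MvPolynomial σ B) :
    polyD δ f (p * q) = polyD δ f p * q + p * polyD δ f q := by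
  rw [polyD_apply, polyD_apply, polyD_apply, coefD_leib δ hδ, Derivation.leibniz, smul_eq_mul,
    smul_eq_mul]
  ring

@[simp] theorem polyD_C (δ : B →+ B) (f : σ → MvPolynomial σ B) (b : B) :
    polyD δ f (C b) = C (δ b) := by
  rw [polyD_apply, coefD_C, derivation_C, add_zero]

@[simp] theorem polyD_X (δ : B →+ B) (hδ : ∀ a b, δ (a * b) = δ a * b + a * δ b)
    (f : σ → MvPolynomial σ B) (s : σ) : polyD δ f (X s) = f s := by
  have h1 : δ 1 = 0 := by simpa using hδ 1 1
  rw [polyD_apply, mkDerivation_X, X, coefD_monomial, h1, map_zero, zero_add]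

end coef

/-- Two additive maps with the Leibniz rule over `φ` agree if they agree on constants and
variables. -/
theorem leib_ext {σ : Type v} {B : Type u} [CommRing B] {R : Type w} [CommRing R]
    (φ : MvPolynomial σ B →+* R) (D E : MvPolynomial σ B →+ R)
    (hD : ∀ p q, D (p * q) = D p * φ q + φ p * D q)
    (hE : ∀ p q, E (p * q) = E p * φ q + φ p * E q)
    (hC : ∀ b, D (C b) = E (C b)) (hX : ∀ s, D (X s) = E (X s)) (p : MvPolynomial σ B) :
    D p = E p := by
  induction p using MvPolynomial.induction_on with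
  | C b => exact hC b
  | add p q hp hq => rw [map_add, map_add, hp, hq]
  | mul_X p s hp => rw [hD, hE, hp, hX]

/-- differential polynomials over `B` in the indeterminates `V` -/
abbrev DP (B : Type u) [CommRing B] (V : Type v) : Type (max u v) := MvPolynomial (V × ℕ × ℕ) B

section DP
variable {B : Type u} [CommRing B] [Diff2 B] {V : Type v}

noncomputable instance instDP : Diff2 (DP B V) where
  d1 := polyD d1 fun x => X (x.1, x.2.1 + 1, x.2.2)
  d2 := polyD d2 fun x => X (x.1, x.2.1, x.2.2 + 1)
  leib1 := polyD_leib d1 leib1 _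
  leib2 := polyD_leib d2 leib2 _
  comm := by
    intro p
    induction p using MvPolynomial.induction_on with
    | C b => simp [Diff2.comm]
    | add p q hp hq => rw [map_add, map_add, map_add, map_add, hp, hq]
    | mul_X p s hp =>
      simp only [polyD_leib d1 leib1, polyD_leib d2 leib2, map_add, hp, polyD_X d1 leib1,
        polyD_X d2 leib2]
      ring

@[simp] theorem d1_C (b : B) : d1 (C b : DP B V) = C (d1 b) := polyD_C _ _ _
@[simp] theorem d2_C (b : B) : d2 (C b : DP B V) = C (d2 b) := polyD_C _ _ _
@[simp] theorem d1_X (x : V × ℕ × ℕ) : d1 (X x : DP B V) = X (x.1, x.2.1 + 1, x.2.2) :=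
  polyD_X _ leib1 _ _
@[simp] theorem d2_X (x : V × ℕ × ℕ) : d2 (X x : DP B V) = X (x.1, x.2.1, x.2.2 + 1) :=
  polyD_X _ leib2 _ _

theorem isDiff_C : IsDiff (C : B →+* DP B V) := ⟨fun b => (d1_C b).symm, fun b => (d2_C b).symm⟩

variable {B' : Type w} [CommRing B'] [Diff2 B']

/-- evaluation of differential polynomials -/
noncomputable def DP.lift (φ : B →+* B') (z : V → B') : DP B V →+* B' :=
  eval₂Hom φ fun x => d1^[x.2.1] (d2^[x.2.2] (z x.1))

omit [Diff2 B] in
@[simp] theorem DP.lift_C (φ : B →+* B') (z : V → B') (b : B) : DP.lift φ z (C b) = φ b :=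
  eval₂Hom_C _ _ _

omit [Diff2 B] in
@[simp] theorem DP.lift_X (φ : B →+* B') (z : V → B') (x : V × ℕ × ℕ) :
    DP.lift φ z (X x) = d1^[x.2.1] (d2^[x.2.2] (z x.1)) := eval₂Hom_X' _ _ _

theorem d2_iter_d1 (n : ℕ) (b : B') : d2 (d1^[n] b) = d1^[n] (d2 b) := by
  induction n generalizing b with
  | zero => rfl
  | succ n ih => rw [Function.iterate_succ_apply, Function.iterate_succ_apply, ih, Diff2.comm]

theorem DP.isDiff_lift {φ : B →+* B'} (h : IsDiff φ) (z : V → B') : IsDiff (DP.lift φ z) := by
  constructor
  · intro p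
    induction p using MvPolynomial.induction_on with
    | C b => simp [h.d1]
    | add p q hp hq => simp [hp, hq]
    | mul_X p s hp =>
      rw [leib1, map_add, map_mul, map_mul, map_mul, leib1, hp, d1_X, DP.lift_X, DP.lift_X,
        Function.iterate_succ_apply']
  · intro p
    induction p using MvPolynomial.induction_on with
    | C b => simp [h.d2]
    | add p q hp hq => simp [hp, hq]
    | mul_X p s hp =>
      rw [leib2, map_add, map_mul, map_mul, map_mul, leib2, hp, d2_X, DP.lift_X, DP.lift_X,
        d2_iter_d1, Function.iterate_succ_apply']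

end DP

/-- Every nonconstant differential polynomial in one indeterminate over `A` has a zero in `A`. -/
def Closed (A : Type u) [CommRing A] [Diff2 A] : Prop :=
  ∀ Φ : DP A Unit, Φ ∉ Set.range (C : A →+* DP A Unit) →
    ∃ y : A, DP.lift (RingHom.id A) (fun _ => y) Φ = 0

end Pool.Agent.L7h73.AC
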