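import Pool.Agent.L7h73.AC.Comp
import Pool.Agent.Results.MP_4b1745_al.OneVariable

/-!
# The algebra `S A` over the field of constants, and evaluation of `f ∈ R * P[x]`
-/

set_option autoImplicit false
set_option linter.unusedSectionVars false

namespace Pool.Agent.L7h73.AC

universe u v w x

open MvPolynomial
open Pool.Agent.Results.MP_4b1745_al.OneVariable (FreeOver const var lift lift_const lift_var induct
  evalAt AlgClosedIn)

attribute [-instance] HahnSeries.powerSeriesAlgebra

section lifts
variable {B : Type u} [CommRing B] [Diff2 B] {V : Type v} {B' : Type w} [CommRing B'] [Diff2 B']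
  {B'' : Type x} [CommRing B''] [Diff2 B'']

theorem isDiff_iter {φ : B →+* B'} (h : IsDiff φ) (i j : ℕ) (b : B) :
    φ (d1^[i] (d2^[j] b)) = d1^[i] (d2^[j] (φ b)) := by
  have h2 : ∀ j b, φ (d2^[j] b) = d2^[j] (φ b) := by
    intro j
    induction j with
    | zero => intro b; rfl
    | succ j ih => intro b; rw [Function.iterate_succ_apply, Function.iterate_succ_apply, ih, h.d2]
  rw [← h2]
  generalize d2^[j] b = c
  induction i generalizing c with
  | zero => rfl
  | succ i ih => rw [Function.iterate_succ_apply, Function.iterate_succ_apply, ih, h.d1]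

/-- composition of evaluations -/
theorem DP.comp_lift {ψ : B' →+* B''} (hψ : IsDiff ψ) (φ : B →+* B') (z : V → B') :
    ψ.comp (DP.lift φ z) = DP.lift (ψ.comp φ) (fun v => ψ (z v)) := by
  apply MvPolynomial.ringHom_ext
  · intro b; simp
  · intro x; rw [RingHom.comp_apply, DP.lift_X, DP.lift_X, isDiff_iter hψ]

theorem iter_X (v : V) (i j : ℕ) : d1^[i] (d2^[j] (X (v, 0, 0) : DP B V)) = X (v, i, j) := by
  have h2 : ∀ j, d2^[j] (X (v, 0, 0) : DP B V) = X (v, 0, j) := by
    intro j
    induction j with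
    | zero => rfl
    | succ j ih => rw [Function.iterate_succ_apply', ih, d2_X]
  rw [h2]
  induction i with
  | zero => rfl
  | succ i ih => rw [Function.iterate_succ_apply', ih, d1_X]

theorem DP.hom_eq_lift {ψ : DP B V →+* B'} (hψ : IsDiff ψ) :
    ψ = DP.lift (ψ.comp C) (fun v => ψ (X (v, 0, 0))) := by
  apply MvPolynomial.ringHom_ext
  · intro b; simp
  · intro x
    rw [DP.lift_X, ← isDiff_iter hψ, iter_X]

/-- differential homomorphisms are determined by the values on constants and indeterminates -/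
theorem DP.hom_ext {ψ χ : DP B V →+* B'} (hψ : IsDiff ψ) (hχ : IsDiff χ)
    (h1 : ∀ b, ψ (C b) = χ (C b)) (h2 : ∀ v, ψ (X (v, 0, 0)) = χ (X (v, 0, 0))) : ψ = χ := by
  rw [DP.hom_eq_lift hψ, DP.hom_eq_lift hχ, show ψ.comp C = χ.comp C from RingHom.ext h1,
    funext h2]

/-- the value at `0` -/
noncomputable def ε : DP B V →+* B := DP.lift (RingHom.id B) (fun _ => 0)

theorem isDiff_ε : IsDiff (ε : DP B V →+* B) := DP.isDiff_lift IsDiff.id _

@[simp] theorem ε_C (b : B) : ε (C b : DP B V) = b := DP.lift_C ..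

@[simp] theorem ε_X (v : V × ℕ × ℕ) : ε (X v : DP B V) = 0 := by
  rw [ε, DP.lift_X]
  simp

theorem ε_eq : (ε : DP B V →+* B) = constantCoeff := by
  apply MvPolynomial.ringHom_ext
  · intro b; simp
  · intro x; simp

end lifts

section K
variable (A : Type u) [Field A] [Diff2 A]

/-- the field of constants -/
def constK : Subfield A where
  carrier := {c | d1 c = 0 ∧ d2 c = 0}
  mul_mem' := fun {a b} ha hb => by
    constructor
    · rw [leib1, ha.1, hb.1]; simp
    · rw [leib2, ha.2, hb.2]; simp
  one_mem' := ⟨d1_one, d2_one⟩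
  add_mem' := fun {a b} ha hb => by
    constructor
    · rw [map_add, ha.1, hb.1]; simp
    · rw [map_add, ha.2, hb.2]; simp
  zero_mem' := ⟨map_zero _, map_zero _⟩
  neg_mem' := fun {a} ha => by
    constructor
    · rw [map_neg, ha.1, neg_zero]
    · rw [map_neg, ha.2, neg_zero]
  inv_mem' := fun a ha => by
    by_cases h0 : a = 0
    · rw [h0, inv_zero]
      exact ⟨map_zero _, map_zero _⟩
    · constructor
      · have h := leib1 a a⁻¹
        rw [mul_inv_cancel₀ h0, d1_one, ha.1, zero_mul, zero_add] at h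
        exact (mul_eq_zero.mp h.symm).resolve_left h0
      · have h := leib2 a a⁻¹
        rw [mul_inv_cancel₀ h0, d2_one, ha.2, zero_mul, zero_add] at h
        exact (mul_eq_zero.mp h.symm).resolve_left h0

/-- the base field -/
abbrev PK : Type u := HahnSeries ℚ (constK A)

end K

section central
variable {B : Type u} [CommRing B] [Algebra ℚ B] [Diff2 B]

theorem S.mul_left_const {c : S B} (h1 : S.D1 c = 0) (x : S B) :
    c * x = S.h.symm (S.h c * S.h x) :=
  congrArg S.h.symm (star_eq_mul_left (a := S.h c) h1 (S.h x))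

theorem S.mul_right_const {c : S B} (h2 : S.D2 c = 0) (x : S B) :
    x * c = S.h.symm (S.h x * S.h c) :=
  congrArg S.h.symm (star_eq_mul_right (S.h x) (b := S.h c) h2)

theorem S.central {c : S B} (h1 : S.D1 c = 0) (h2 : S.D2 c = 0) (x : S B) : c * x = x * c := by
  rw [S.mul_left_const h1, S.mul_right_const h2, mul_comm]

end central

section alg
variable {A : Type u} [Field A] [CharZero A] [Diff2 A]

/-- the embedding of the base field -/
noncomputable def iotaAdd : PK A →+ S A :=
  S.h.symm.toAddMonoidHom.comp (hmap ((constK A).subtype : constK A →+ A))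

theorem iotaAdd_apply (p : PK A) :
    iotaAdd p = S.h.symm (hmap ((constK A).subtype : constK A →+ A) p) := rfl

theorem iotaAdd_one : iotaAdd (1 : PK A) = 1 := by
  ext1 q
  change (((1 : PK A).coeff q : constK A) : A) = S.cf (S.sg 0 1) q
  rw [S.cf_sg, HahnSeries.coeff_one]
  split_ifs <;> simp

theorem d1_hmap (p : PK A) : d1 (hmap ((constK A).subtype : constK A →+ A) p) = 0 := by
  ext q
  exact (p.coeff q).2.1

theorem iotaAdd_mul (p q : PK A) : iotaAdd (p * q) = iotaAdd p * iotaAdd q := by
  have h := hmap_mul (Finset.univ : Finset Unit) ((constK A).subtype : constK A →+ A)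
    (fun _ => ((constK A).subtype : constK A →+ A)) (fun _ => ((constK A).subtype : constK A →+ A))
    (fun x y => by simp) p q
  rw [Fintype.sum_unique] at h
  have h2 : iotaAdd p * iotaAdd q = S.h.symm (star (hmap ((constK A).subtype : constK A →+ A) p)
    (hmap ((constK A).subtype : constK A →+ A) q)) := rfl
  rw [h2, star_eq_mul_left (d1_hmap p), ← h]
  rfl

/-- the embedding of the base field -/
noncomputable def iota : PK A →+* S A where
  toFun := iotaAdd
  map_zero' := map_zero _
  map_add' := map_add _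
  map_one' := iotaAdd_one
  map_mul' := iotaAdd_mul

theorem cf_iota (p : PK A) (q : ℚ) : S.cf (iota p) q = (p.coeff q : A) := rfl

theorem D1_iota (p : PK A) : S.D1 (iota p) = 0 := by
  ext1 q
  rw [S.cf_D1, cf_iota, S.cf_zero]
  exact (p.coeff q).2.1

theorem D2_iota (p : PK A) : S.D2 (iota p) = 0 := by
  ext1 q
  rw [S.cf_D2, cf_iota, S.cf_zero]
  exact (p.coeff q).2.2

theorem exists_iota {c : S A} (h1 : S.D1 c = 0) (h2 : S.D2 c = 0) : ∃ p : PK A, iota p = c := by
  have h3 : ∀ q, d1 (S.cf c q) = 0 := fun q => congrArg (fun z => S.cf z q) h1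
  have h4 : ∀ q, d2 (S.cf c q) = 0 := fun q => congrArg (fun z => S.cf z q) h2
  refine ⟨⟨fun q => ⟨S.cf c q, h3 q, h4 q⟩, ?_⟩, ?_⟩
  · refine (S.isPWO_support c).mono fun q hq hq0 => hq (Subtype.ext hq0)
  · ext1 q
    rfl

theorem iota_comm (c : PK A) (x : S A) : iota c * x = x * iota c :=
  S.central (D1_iota c) (D2_iota c) x

noncomputable instance instAlg : Algebra (PK A) (S A) := RingHom.toAlgebra' iota iota_comm

theorem algebraMap_eq (p : PK A) : algebraMap (PK A) (S A) p = iota p := rfl

theorem smul_eq (p : PK A) (x : S A) : p • x = iota p * x := rfl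

variable {B : Type v} [CommRing B] [Algebra ℚ B] [Diff2 B]

theorem D1_map {A : Type u} [CommRing A] [Algebra ℚ A] [Diff2 A] (φ : A →+* B) (hφ : IsDiff φ)
    (x : S A) : S.D1 (S.map φ hφ x) = S.map φ hφ (S.D1 x) := by
  ext1 q
  simp [hφ.d1]

theorem D2_map {A : Type u} [CommRing A] [Algebra ℚ A] [Diff2 A] (φ : A →+* B) (hφ : IsDiff φ)
    (x : S A) : S.D2 (S.map φ hφ x) = S.map φ hφ (S.D2 x) := by
  ext1 q
  simp [hφ.d2]

theorem map_iota_comm (φ : A →+* B) (hφ : IsDiff φ) (c : PK A) (x : S B) :
    ((S.map φ hφ).comp iota) c * x = x * ((S.map φ hφ).comp iota) c := by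
  refine S.central ?_ ?_ x
  · rw [RingHom.comp_apply, D1_map, D1_iota, map_zero]
  · rw [RingHom.comp_apply, D2_map, D2_iota, map_zero]

/-- the algebra structure on `S B` -/
noncomputable abbrev algB (φ : A →+* B) (hφ : IsDiff φ) : Algebra (PK A) (S B) :=
  RingHom.toAlgebra' ((S.map φ hφ).comp iota) (map_iota_comm φ hφ)

/-- evaluation of elements of the free product -/
noncomputable def ev (φ : A →+* B) (hφ : IsDiff φ) (z : S B) : FreeOver (PK A) (S A) Unit →+* S B :=
  letI := algB φ hφ
  (lift ({ S.map φ hφ with commutes' := fun _ => rfl } : S A →ₐ[PK A] S B)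
    (fun _ => z) : FreeOver (PK A) (S A) Unit →ₐ[PK A] S B).toRingHom

@[simp] theorem ev_const (φ : A →+* B) (hφ : IsDiff φ) (z : S B) (a : S A) :
    ev φ hφ z (const (PK A) (S A) Unit a) = S.map φ hφ a := by
  let := algB φ hφ
  exact lift_const _ _ _

@[simp] theorem ev_var (φ : A →+* B) (hφ : IsDiff φ) (z : S B) (i : Unit) :
    ev φ hφ z (var (PK A) (S A) Unit i) = z := by
  let := algB φ hφ
  exact lift_var _ _ _

/-- ring homomorphisms from the free product are determined on constants and the variable -/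
theorem free_hom_ext {T : Type x} [Ring T] {ψ χ : FreeOver (PK A) (S A) Unit →+* T}
    (h1 : ∀ a, ψ (const (PK A) (S A) Unit a) = χ (const (PK A) (S A) Unit a))
    (h2 : ψ (var (PK A) (S A) Unit ()) = χ (var (PK A) (S A) Unit ())) : ψ = χ := by
  refine RingHom.ext fun f => ?_
  induction f using induct with
  | hc a => exact h1 a
  | hv i => exact h2
  | hadd f g hf hg => rw [map_add, map_add, hf, hg]
  | hmul f g hf hg => rw [map_mul, map_mul, hf, hg]

theorem ev_id (c : Unit → S A) (f : FreeOver (PK A) (S A) Unit) :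
    ev (RingHom.id A) IsDiff.id (c ()) f = evalAt c f := by
  have : ev (RingHom.id A) IsDiff.id (c ()) = (evalAt c : FreeOver (PK A) (S A) Unit →ₐ[PK A] S A).toRingHom := by
    apply free_hom_ext
    · intro a
      rw [ev_const]
      change _ = evalAt c _
      rw [evalAt, lift_const]
      rfl
    · rw [ev_var]
      change _ = evalAt c _
      rw [evalAt, lift_var]
  rw [this]
  rfl

variable {B' : Type w} [CommRing B'] [Algebra ℚ B'] [Diff2 B']

theorem map_ev (ψ : B →+* B') (hψ : IsDiff ψ) (φ : A →+* B) (hφ : IsDiff φ) (z : S B)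
    (f : FreeOver (PK A) (S A) Unit) :
    S.map ψ hψ (ev φ hφ z f) = ev (ψ.comp φ) (hψ.comp hφ) (S.map ψ hψ z) f := by
  have : (S.map ψ hψ).comp (ev φ hφ z) = ev (ψ.comp φ) (hψ.comp hφ) (S.map ψ hψ z) := by
    apply free_hom_ext
    · intro a
      rw [RingHom.comp_apply, ev_const, ev_const]
      rfl
    · rw [RingHom.comp_apply, ev_var, ev_var]
  rw [← this]
  rfl

theorem ev_congr {φ φ' : A →+* B} (hφ : IsDiff φ) (h : φ = φ') {z z' : S B} (hz : z = z')
    (f : FreeOver (PK A) (S A) Unit) : ev φ hφ z f = ev φ' (h ▸ hφ) z' f := by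
  subst h hz
  rfl

end alg

end Pool.Agent.L7h73.AC
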