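import Pool.Agent.L7h73.AC.Ev

/-!
# Newton's method in the star ring

For `f ∈ R * P[x]`, `x ∈ R = S A` and `γ ∈ ℚ` let `F f x γ = f (x + h^γ u)`, an element of the star
ring over the differential polynomials in `u`.
-/

set_option autoImplicit false
set_option linter.unusedSectionVars false

namespace Pool.Agent.L7h73.AC

universe u v w x

open MvPolynomial S
open Pool.Agent.Results.MP_4b1745_al.OneVariable (FreeOver const var lift lift_const lift_var induct
  evalAt AlgClosedIn)

attribute [-instance] HahnSeries.powerSeriesAlgebra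

section deg
variable {A : Type u} [CommRing A] [Algebra ℚ A] [Diff2 A] {V : Type v}

/-- embedding of constants -/
noncomputable abbrev em (V : Type v) : S A →+* S (DP A V) := S.map (C : A →+* DP A V) isDiff_C

/-- the weight which counts all indeterminates -/
abbrev w1 : V → ℕ := fun _ => 1

theorem wt_w1_eq_zero {m : V × ℕ × ℕ →₀ ℕ} (h : wt (w1 : V → ℕ) m = 0) : m = 0 := by
  ext s
  have h1 : wt (w1 : V → ℕ) m = m.sum fun s n => n * 1 := by
    rw [wt, Finsupp.weight_apply]
    rfl
  rw [h1, Finsupp.sum, Finset.sum_eq_zero_iff] at h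
  by_cases hs : s ∈ m.support
  · have := h s hs
    simpa using this
  · simpa using hs

theorem compP_zero_w1 (p : DP A V) : compP (w1 : V → ℕ) 0 p = C (ε p) := by
  classical
  ext m
  rw [coeff_compP, coeff_C, ε_eq, constantCoeff_eq]
  by_cases hm : 0 = m
  · subst hm
    rw [if_pos rfl, if_pos (map_zero _)]
  · rw [if_neg hm, if_neg]
    intro h
    exact hm (wt_w1_eq_zero h).symm

theorem eq_C_of_compP {p : DP A V} (h : ∀ k ≠ 0, compP (w1 : V → ℕ) k p = 0) : p = C (ε p) := by
  refine compP_ext (w1 : V → ℕ) fun k => ?_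
  by_cases hk : k = 0
  · subst hk
    rw [compP_zero_w1, compP_zero_w1, ε_C]
  · rw [h k hk, compP_C, if_neg hk]

theorem exists_compP_ne {p : DP A V} (h : p ∉ Set.range (C : A →+* DP A V)) :
    ∃ k ≠ 0, compP (w1 : V → ℕ) k p ≠ 0 := by
  by_contra hcon
  push Not at hcon
  exact h ⟨_, (eq_C_of_compP hcon).symm⟩

theorem comp_zero_w1 (z : S (DP A V)) : comp (w1 : V → ℕ) 0 z = em V (S.map ε isDiff_ε z) := by
  ext1 q
  rw [cf_comp, compP_zero_w1]
  rfl

theorem eq_em_of_comp {z : S (DP A V)} (h : ∀ k ≠ 0, comp (w1 : V → ℕ) k z = 0) :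
    z = em V (S.map ε isDiff_ε z) := by
  ext1 q
  exact eq_C_of_compP fun k hk => congrArg (fun z => cf z q) (h k hk)

/-- bounded degree -/
def DegLe (N : ℕ) (z : S (DP A V)) : Prop := ∀ k, N < k → comp (w1 : V → ℕ) k z = 0

theorem DegLe.mul {N N' : ℕ} {y z : S (DP A V)} (hy : DegLe N y) (hz : DegLe N' z) :
    DegLe (N + N') (y * z) := fun k hk => by
  rw [comp_mul]
  refine Finset.sum_eq_zero fun t ht => ?_
  rw [Finset.HasAntidiagonal.mem_antidiagonal] at ht
  by_cases h1 : N < t.1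
  · rw [hy _ h1, zero_mul]
  · rw [hz _ (by omega), mul_zero]

theorem DegLe.add {N N' : ℕ} {y z : S (DP A V)} (hy : DegLe N y) (hz : DegLe N' z) :
    DegLe (N + N') (y + z) := fun k hk => by
  rw [map_add, hy k (by omega), hz k (by omega), add_zero]

theorem DegLe.em (a : S A) : DegLe 0 (em V a) := fun k hk => by
  ext1 q
  rw [cf_comp, cf_map, compP_C, if_neg (by omega), cf_zero]

/-- the indeterminate -/
noncomputable def uv (v : V) : S (DP A V) := S.sg 0 (X (v, 0, 0))

theorem DegLe.hp_mul_uv (γ : ℚ) (v : V) : DegLe 1 (hp γ * uv v : S (DP A V)) := fun k hk => by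
  ext1 q
  rw [cf_comp, cf_hp_mul, uv, cf_sg, cf_zero]
  split_ifs
  · rw [compP_X, if_neg]
    change k ≠ 1
    omega
  · rw [map_zero]

end deg

section F
variable {A : Type u} [Field A] [CharZero A] [Diff2 A]

/-- the expansion of `f` at `x` at the scale `γ` -/
noncomputable def F (f : FreeOver (PK A) (S A) Unit) (x : S A) (γ : ℚ) : S (DP A Unit) :=
  ev C isDiff_C (em Unit x + hp γ * uv ()) f

theorem exists_degLe (f : FreeOver (PK A) (S A) Unit) (x : S A) : ∃ N, DegLe N (F f x 0) := by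
  induction f using induct with
  | hc a =>
    refine ⟨0, ?_⟩
    rw [F, ev_const]
    exact DegLe.em a
  | hv i =>
    refine ⟨0 + 1, ?_⟩
    rw [F, ev_var]
    exact (DegLe.em x).add (DegLe.hp_mul_uv 0 ())
  | hadd f g hf hg =>
    obtain ⟨N, hN⟩ := hf
    obtain ⟨N', hN'⟩ := hg
    refine ⟨N + N', ?_⟩
    rw [F, map_add]
    exact hN.add hN'
  | hmul f g hf hg =>
    obtain ⟨N, hN⟩ := hf
    obtain ⟨N', hN'⟩ := hg
    refine ⟨N + N', ?_⟩
    rw [F, map_mul]
    exact hN.mul hN'

/-- closure properties of `Rel` -/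
theorem rel_ev {V : Type v} {M : Type w} [AddCommMonoid M] [Finset.HasAntidiagonal M]
    {w : V → M} {φ : M →+ ℚ} {y z : S (DP A V)} (h : Rel w φ y z)
    (f : FreeOver (PK A) (S A) Unit) :
    Rel w φ (ev C isDiff_C y f) (ev C isDiff_C z f) := by
  induction f using induct with
  | hc a =>
    rw [ev_const, ev_const]
    exact Rel.map_C a
  | hv i =>
    rw [ev_var, ev_var]
    exact h
  | hadd f g hf hg =>
    rw [map_add, map_add]
    exact hf.add hg
  | hmul f g hf hg =>
    rw [map_mul, map_mul]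
    exact hf.mul hg

theorem hp_mul_uv {V : Type v} (γ : ℚ) (v : V) :
    (hp γ * uv v : S (DP A V)) = S.sg γ (X (v, 0, 0)) := by
  ext1 q
  rw [cf_hp_mul, uv, cf_sg, cf_sg]
  congr 1
  exact propext ⟨fun h => by linarith, fun h => by linarith⟩

/-- change of the scale -/
theorem scale (f : FreeOver (PK A) (S A) Unit) (x : S A) (γ δ : ℚ) (k : ℕ) (q : ℚ) :
    compP (w1 : Unit → ℕ) k (cf (F f x γ) q) =
      compP (w1 : Unit → ℕ) k (cf (F f x δ) (q - k * (γ - δ))) := by
  have h0 : ∀ γ k q, compP (w1 : Unit → ℕ) k (cf (F f x γ) q) =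
      compP (w1 : Unit → ℕ) k (cf (F f x 0) (q - k * γ)) := by
    intro γ k q
    let φ : ℕ →+ ℚ := (multiplesHom ℚ) γ
    have hφ : ∀ k : ℕ, φ k = k * γ := fun k => by simp [φ]
    have h1 : Rel (w1 : Unit → ℕ) φ (em Unit x + hp γ * uv ()) (em Unit x + hp 0 * uv ()) := by
      refine (Rel.map_C x).add ?_
      rw [hp_mul_uv, hp_mul_uv]
      exact Rel.sg γ ((), 0, 0) (by rw [hφ]; simp)
    have h2 := congrArg (fun z => cf z q) (rel_ev h1 f k)
    simp only [cf_hp_mul, cf_comp, hφ] at h2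
    exact h2
  rw [h0 γ, h0 δ]
  congr 2
  ring_nf

/-- translation of the indeterminate -/
noncomputable def tau (a : A) : DP A Unit →+* DP A Unit :=
  DP.lift C fun v => X (v, 0, 0) + C a

theorem isDiff_tau (a : A) : IsDiff (tau a) := DP.isDiff_lift isDiff_C _

theorem tau_C (a b : A) : tau a (C b) = C b := DP.lift_C ..

theorem tau_X (a : A) : tau a (X ((), 0, 0)) = X ((), 0, 0) + C a := by
  rw [tau, DP.lift_X]
  rfl

theorem tau_comp_C (a : A) : (tau a).comp C = (C : A →+* DP A Unit) :=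
  RingHom.ext fun b => tau_C a b

theorem tau_tau (a : A) (p : DP A Unit) : tau (-a) (tau a p) = p := by
  have : (tau (-a)).comp (tau a) = RingHom.id _ := by
    refine DP.hom_ext ((isDiff_tau _).comp (isDiff_tau _)) IsDiff.id ?_ ?_
    · intro b; rw [RingHom.comp_apply, tau_C, tau_C]; rfl
    · intro v
      rw [RingHom.comp_apply, show (v, 0, 0) = ((), 0, 0) from rfl, tau_X, map_add, tau_X, tau_C]
      simp
  exact congrArg (fun g : DP A Unit →+* DP A Unit => g p) this

theorem tau_nonconst {a : A} {p : DP A Unit} (h : p ∉ Set.range (C : A →+* DP A Unit)) :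
    tau a p ∉ Set.range (C : A →+* DP A Unit) := by
  rintro ⟨b, hb⟩
  apply h
  refine ⟨b, ?_⟩
  rw [← tau_tau a p, ← hb, tau_C]

theorem ε_tau (a : A) (p : DP A Unit) :
    ε (tau a p) = DP.lift (RingHom.id A) (fun _ => a) p := by
  have : (ε : DP A Unit →+* A).comp (tau a) = DP.lift (RingHom.id A) (fun _ => a) := by
    refine DP.hom_ext (isDiff_ε.comp (isDiff_tau _)) (DP.isDiff_lift IsDiff.id _) ?_ ?_
    · intro b; rw [RingHom.comp_apply, tau_C, ε_C, DP.lift_C]; rfl
    · intro v
      rw [RingHom.comp_apply, show (v, 0, 0) = ((), 0, 0) from rfl, tau_X, map_add, ε_C, ε_X,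
        DP.lift_X, zero_add]
      rfl
  exact congrArg (fun g : DP A Unit →+* A => g p) this

theorem F_transl (f : FreeOver (PK A) (S A) Unit) (x : S A) (γ : ℚ) (a : A) :
    F f (x + S.sg γ a) γ = S.map (tau a) (isDiff_tau a) (F f x γ) := by
  rw [F, F, map_ev]
  refine ev_congr _ (tau_comp_C a).symm ?_ f
  rw [map_add, map_add, hp_mul_uv, map_sg, map_sg, tau_X, sg_add, add_assoc]
  have h1 : S.map (tau a) (isDiff_tau a) (em Unit x) = em Unit x := by
    ext1 q
    rw [cf_map, cf_map, tau_C]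
  rw [h1, add_comm (S.sg γ (C a))]

end F

end Pool.Agent.L7h73.AC
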