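import Pool.Agent.L7h73.AC.Newton

/-!
# Perturbations of higher order do not change the leading coefficients
-/

set_option autoImplicit false
set_option linter.unusedSectionVars false

namespace Pool.Agent.L7h73.AC

universe u v w x

open MvPolynomial S
open Pool.Agent.Results.MP_4b1745_al.OneVariable (FreeOver const var lift lift_const lift_var induct
  evalAt AlgClosedIn)

attribute [-instance] HahnSeries.powerSeriesAlgebra

section multi
variable {A : Type u} [CommRing A] [Algebra ℚ A] [Diff2 A] {V : Type v} [DecidableEq V]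

/-- the universal weight -/
noncomputable abbrev wu (v : V) : V →₀ ℕ := Finsupp.single v 1

theorem lift_comp_C {B : Type w} [CommRing B] [Diff2 B] (φ : A →+* B) (z : V → B) :
    (DP.lift φ z).comp (C : A →+* DP A V) = φ :=
  RingHom.ext fun b => DP.lift_C φ z b

theorem wt_wu_ge (m : V × ℕ × ℕ →₀ ℕ) (i : V × ℕ × ℕ) : m i ≤ wt wu m i.1 := by
  have h1 : wt wu m = m.sum fun s n => n • (Finsupp.single s.1 1 : V →₀ ℕ) := by
    rw [wt, Finsupp.weight_apply]
  rw [h1, Finsupp.sum, Finsupp.finsetSum_apply]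
  by_cases hi : i ∈ m.support
  · refine le_trans ?_ (Finset.single_le_sum (fun _ _ => Nat.zero_le _) hi)
    simp
  · rw [Finsupp.notMem_support_iff.mp hi]
    exact Nat.zero_le _

theorem lift_congr {B : Type w} [CommRing B] [Diff2 B] (φ : A →+* B) (z z' : V → B)
    (p : DP A V) (T : Set V) (hz : ∀ v, v ∉ T → z v = z' v)
    (hp : ∀ μ, (∃ v ∈ T, μ v ≠ 0) → compP wu μ p = 0) : DP.lift φ z p = DP.lift φ z' p := by
  refine eval₂Hom_congr' rfl (fun i hi _ => ?_) rfl
  rw [mem_vars_iff_mem_support] at hi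
  obtain ⟨d, hd, hi⟩ := hi
  by_cases hT : i.1 ∈ T
  · exfalso
    have h1 : wt wu d i.1 ≠ 0 := by
      have := wt_wu_ge d i
      rw [Finsupp.mem_support_iff] at hi
      omega
    have h2 := congrArg (coeff d) (hp (wt wu d) ⟨i.1, hT, h1⟩)
    rw [coeff_compP, if_pos rfl, coeff_zero] at h2
    exact (mem_support_iff.mp hd) h2
  · simp only [hz _ hT]

/-- kill the indeterminates outside `T` -/
noncomputable def kill (T : Set V) : DP A V →+* DP A V :=
  open Classical in DP.lift C fun v => if v ∈ T then X (v, 0, 0) else 0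

theorem isDiff_kill (T : Set V) : IsDiff (kill T : DP A V →+* DP A V) := DP.isDiff_lift isDiff_C _

@[simp] theorem kill_C (T : Set V) (a : A) : kill T (C a : DP A V) = C a := DP.lift_C ..

theorem kill_X_mem {T : Set V} {x : V × ℕ × ℕ} (hx : x.1 ∈ T) : kill T (X x : DP A V) = X x := by
  rw [kill, DP.lift_X, if_pos hx, iter_X]

theorem kill_X_not_mem {T : Set V} {x : V × ℕ × ℕ} (hx : x.1 ∉ T) :
    kill T (X x : DP A V) = 0 := by
  rw [kill, DP.lift_X, if_neg hx]
  simp

theorem compP_kill (T : Set V) (p : DP A V) (μ : V →₀ ℕ) (hμ : ∀ v, v ∉ T → μ v = 0) :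
    compP wu μ (kill T p) = compP wu μ p := by
  classical
  induction p using MvPolynomial.induction_on generalizing μ with
  | C a => rw [kill_C]
  | add p q hp hq => rw [map_add, map_add, map_add, hp μ hμ, hq μ hμ]
  | mul_X p s hp =>
    rw [map_mul, compP_mul, compP_mul]
    refine Finset.sum_congr rfl fun t ht => ?_
    rw [Finset.HasAntidiagonal.mem_antidiagonal] at ht
    have h1 : ∀ v, v ∉ T → t.1 v = 0 := fun v hv => by
      have := hμ v hv
      rw [← ht, Finsupp.add_apply] at this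
      omega
    have h2 : ∀ v, v ∉ T → t.2 v = 0 := fun v hv => by
      have := hμ v hv
      rw [← ht, Finsupp.add_apply] at this
      omega
    rw [hp _ h1]
    congr 1
    by_cases hs : s.1 ∈ T
    · rw [kill_X_mem hs]
    · rw [kill_X_not_mem hs, compP_X, if_neg, map_zero]
      intro h3
      have := h2 s.1 hs
      rw [h3, Finsupp.single_eq_same] at this
      exact one_ne_zero this

theorem em_hp (γ : ℚ) : em V (hp γ : S A) = hp γ := by
  rw [hp, hp, map_sg, map_one]

theorem map_hp {B B' : Type*} [CommRing B] [Algebra ℚ B] [Diff2 B] [CommRing B'] [Algebra ℚ B']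
    [Diff2 B'] (φ : B →+* B') (hφ : IsDiff φ) (γ : ℚ) : S.map φ hφ (hp γ) = hp γ := by
  rw [hp, hp, map_sg, map_one]

theorem Rel.hp_mul {M : Type*} [AddCommMonoid M] [Finset.HasAntidiagonal M] {w : V → M}
    {φ : M →+ ℚ} {y z : S (DP A V)} (h : Rel w φ y z) (γ : ℚ) :
    Rel w φ (hp γ * y) (hp γ * z) := by
  rw [← em_hp]
  exact (Rel.map_C _).mul h

theorem Rel.sum {M : Type*} [AddCommMonoid M] [Finset.HasAntidiagonal M] {w : V → M}
    {φ : M →+ ℚ} {ι : Type*} (s : Finset ι) (y z : ι → S (DP A V))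
    (h : ∀ i ∈ s, Rel w φ (y i) (z i)) : Rel w φ (∑ i ∈ s, y i) (∑ i ∈ s, z i) := by
  classical
  induction s using Finset.induction_on with
  | empty => exact Rel.zero
  | insert i s hi ih =>
    rw [Finset.sum_insert hi, Finset.sum_insert hi]
    exact (h i (Finset.mem_insert_self _ _)).add (ih fun j hj => h j (Finset.mem_insert_of_mem hj))

end multi

section pert
variable {A : Type u} [Field A] [CharZero A] [Diff2 A]

theorem map_em {V : Type*} {B : Type*} [CommRing B] [Algebra ℚ B] [Diff2 B]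
    (ψ : DP A V →+* B) (hψ : IsDiff ψ) {φ : A →+* B} (hφ : IsDiff φ) (h : ψ.comp C = φ)
    (x : S A) : S.map ψ hψ (em V x) = S.map φ hφ x := by
  subst h
  rfl

/-- the generic series with the support of `r` -/
noncomputable def gen (r : S A) : S (DP A (Option ℚ)) :=
  open Classical in
  S.mk (fun s => if cf r s = 0 then 0 else X (some s, 0, 0)) ((isPWO_support r).mono (by
    intro s hs h0
    exact hs (if_pos h0)))

theorem cf_gen (r : S A) (s : ℚ) [Decidable (cf r s = 0)] :
    cf (gen r) s = if cf r s = 0 then 0 else X (some s, 0, 0) := by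
  rw [gen, cf_mk]
  split_ifs <;> rfl

variable (f : FreeOver (PK A) (S A) Unit) (x r : S A) (γ m : ℚ)

/-- the generic perturbation -/
noncomputable def G : S (DP A (Option ℚ)) :=
  ev C isDiff_C (em (Option ℚ) x + hp γ * (uv none + gen r)) f

theorem compP_G (hm : Ge m (F f x γ)) (hr : ∀ q ≤ 0, cf r q = 0) {q : ℚ} (hq : q ≤ m)
    (μ : Option ℚ →₀ ℕ) (hμ : ∃ v ∈ Set.range (some : ℚ → Option ℚ), μ v ≠ 0) :
    compP wu μ (cf (G f x r γ) q) = 0 := by
  classical
  obtain ⟨-, ⟨s0, rfl⟩, hs0⟩ := hμ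
  let T : Set (Option ℚ) := {v | v = none ∨ μ v ≠ 0}
  have hT : ∀ v, v ∉ T → μ v = 0 := fun v hv => by
    by_contra h
    exact hv (Or.inr h)
  rw [← compP_kill T _ _ hT]
  -- the finite support
  let W : Finset ℚ := (μ.support.preimage (some : ℚ → Option ℚ)
    ((Option.some_injective ℚ).injOn)).filter fun s => cf r s ≠ 0
  have hW : ∀ s, s ∈ W ↔ μ (some s) ≠ 0 ∧ cf r s ≠ 0 := fun s => by
    rw [Finset.mem_filter, Finset.mem_preimage, Finsupp.mem_support_iff]
  have hgen : S.map (kill T) (isDiff_kill T) (gen r) =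
      ∑ s ∈ W, S.sg s (X (some s, 0, 0) : DP A (Option ℚ)) := by
    ext1 q
    rw [cf_map, cf_gen, cf_sum]
    simp only [cf_sg]
    rw [Finset.sum_ite_eq]
    by_cases h1 : cf r q = 0
    · rw [if_pos h1, map_zero, if_neg]
      intro h2
      exact ((hW q).mp h2).2 h1
    · rw [if_neg h1]
      by_cases h2 : μ (some q) = 0
      · rw [kill_X_not_mem, if_neg]
        · intro h3
          exact ((hW q).mp h3).1 h2
        · rintro (h3 | h3)
          · exact absurd h3 (by simp)
          · exact h3 h2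
      · rw [kill_X_mem (show (some q, 0, 0).1 ∈ T from Or.inr h2), if_pos ((hW q).mpr ⟨h2, h1⟩)]
  have hK : S.map (kill T) (isDiff_kill T) (G f x r γ) =
      ev C isDiff_C (em (Option ℚ) x + hp γ * (uv none +
        ∑ s ∈ W, S.sg s (X (some s, 0, 0) : DP A (Option ℚ)))) f := by
    rw [G, map_ev]
    refine ev_congr _ (RingHom.ext fun b => kill_C T b) ?_ f
    rw [map_add, map_mul, map_add, map_hp, hgen, uv, map_sg,
      kill_X_mem (show (none : Option ℚ) ∈ T from Or.inl rfl),
      map_em (kill T) (isDiff_kill T) isDiff_C (RingHom.ext fun b => kill_C T b)]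
  let g : Option ℚ → ℚ := fun v => v.elim 0 fun s => if 0 < s then s else 1
  let φ : (Option ℚ →₀ ℕ) →+ ℚ := Finsupp.liftAddHom fun v => (multiplesHom ℚ) (g v)
  have hφ : ∀ v, φ (wu v) = g v := fun v => by simp [φ]
  have hrel : Rel wu φ (em (Option ℚ) x + hp γ * (uv none +
        ∑ s ∈ W, S.sg s (X (some s, 0, 0) : DP A (Option ℚ))))
      (em (Option ℚ) x + hp γ * (uv none +
        ∑ s ∈ W, S.sg 0 (X (some s, 0, 0) : DP A (Option ℚ)))) := by
    refine (Rel.map_C x).add (Rel.hp_mul (Rel.add ?_ (Rel.sum W _ _ fun s hs => ?_)) γ)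
    · exact Rel.sg 0 (none, 0, 0) (hφ none)
    · refine Rel.sg s (some s, 0, 0) ((hφ (some s)).trans ?_)
      have h1 : 0 < s := by
        by_contra h2
        exact ((hW s).mp hs).2 (hr s (not_lt.mp h2))
      simp [g, h1]
  have hH : ev C isDiff_C (em (Option ℚ) x + hp γ * (uv none +
        ∑ s ∈ W, S.sg 0 (X (some s, 0, 0) : DP A (Option ℚ)))) f =
      S.map (DP.lift C fun _ : Unit => X (none, 0, 0) + ∑ s ∈ W, X (some s, 0, 0))
        (DP.isDiff_lift isDiff_C _) (F f x γ) := by
    rw [F, map_ev]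
    refine ev_congr _ (lift_comp_C _ _).symm ?_ f
    rw [map_add, map_mul, map_hp, uv, uv, map_sg, DP.lift_X, map_em _ _ isDiff_C
      (lift_comp_C _ _)]
    congr 2
    change _ = S.sg 0 (X (none, 0, 0) + ∑ s ∈ W, X (some s, 0, 0))
    rw [sg_add]
    congr 1
    exact (map_sum (⟨⟨S.sg 0, sg_zero 0⟩, sg_add 0⟩ : DP A (Option ℚ) →+ S (DP A (Option ℚ)))
      (fun s => X (some s, 0, 0)) W).symm
  have h1 := congrArg (fun z => cf z q) (rel_ev hrel f μ)
  simp only [cf_hp_mul, cf_comp] at h1
  rw [← hK, cf_map, hH, cf_map] at h1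
  rw [h1, hm, map_zero, map_zero]
  have hpos : 0 < φ μ := by
    have h2 : φ μ = ∑ v ∈ μ.support, μ v * g v := by
      simp [φ, Finsupp.sum]
    rw [h2]
    have hg : ∀ v, 0 ≤ g v := by
      intro v
      cases v with
      | none => exact le_rfl
      | some s =>
        simp only [g, Option.elim]
        split_ifs with h
        · exact h.le
        · exact zero_le_one
    refine Finset.sum_pos' (fun v _ => mul_nonneg (Nat.cast_nonneg _) (hg v)) ⟨some s0,
      Finsupp.mem_support_iff.mpr hs0, mul_pos (by exact_mod_cast Nat.pos_of_ne_zero hs0) ?_⟩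
    simp only [g, Option.elim]
    split_ifs with h
    · exact h
    · exact zero_lt_one
  linarith

theorem spec_gen (x r r' : S A) (γ : ℚ) (hr' : ∀ s, cf r s = 0 → cf r' s = 0) :
    S.map (DP.lift C fun v : Option ℚ => v.elim (X ((), 0, 0)) fun s => C (cf r' s))
        (DP.isDiff_lift isDiff_C _) (em (Option ℚ) x + hp γ * (uv none + gen r)) =
      em Unit (x + hp γ * r') + hp γ * uv () := by
  classical
  set ψ : DP A (Option ℚ) →+* DP A Unit :=
    DP.lift C fun v : Option ℚ => v.elim (X ((), 0, 0)) fun s => C (cf r' s) with hψ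
  have h1 : S.map ψ (DP.isDiff_lift isDiff_C _) (gen r) = em Unit r' := by
    ext1 s
    rw [cf_map, cf_gen, cf_map]
    by_cases h : cf r s = 0
    · rw [if_pos h, hr' s h, map_zero, map_zero]
    · rw [if_neg h, hψ, DP.lift_X]
      rfl
  have h2 : S.map ψ (DP.isDiff_lift isDiff_C _) (uv none) = uv () := by
    rw [uv, map_sg, hψ, DP.lift_X]
    rfl
  have h3 : S.map ψ (DP.isDiff_lift isDiff_C _) (em (Option ℚ) x) = em Unit x :=
    map_em _ _ isDiff_C (lift_comp_C _ _) x
  rw [map_add (S.map ψ _), map_mul (S.map ψ _), map_add (S.map ψ _), h1, h2, h3, map_hp,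
    map_add (em Unit), map_mul (em Unit), em_hp, mul_add]
  abel

/-- perturbations of higher order do not change the leading coefficients -/
theorem pert (hm : Ge m (F f x γ)) (hr : ∀ q ≤ 0, cf r q = 0) {q : ℚ} (hq : q ≤ m) :
    cf (F f (x + hp γ * r) γ) q = cf (F f x γ) q := by
  classical
  have h0 : ∀ r' : S A, (∀ s, cf r s = 0 → cf r' s = 0) →
      S.map (DP.lift C fun v : Option ℚ => v.elim (X ((), 0, 0)) fun s => C (cf r' s))
        (DP.isDiff_lift isDiff_C _) (G f x r γ) = F f (x + hp γ * r') γ := by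
    intro r' hr'
    rw [G, F, map_ev]
    refine ev_congr _ (lift_comp_C _ _) ?_ f
    exact spec_gen x r r' γ hr'
  have h1 := congrArg (fun z => cf z q) (h0 r fun _ h => h)
  have h2 := congrArg (fun z => cf z q) (h0 0 fun _ _ => rfl)
  simp only [mul_zero, add_zero] at h2
  rw [← h1, ← h2]
  simp only [cf_map]
  refine lift_congr _ _ _ _ (Set.range (some : ℚ → Option ℚ)) ?_ ?_
  · intro v hv
    cases v with
    | none => rfl
    | some s => exact absurd ⟨s, rfl⟩ hv
  · exact fun μ hμ => compP_G f x r γ m hm hr hq μ hμ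

/-- transfer of the leading coefficients -/
theorem transfer (f : FreeOver (PK A) (S A) Unit) {x y : S A} {γ m : ℚ} (hm : Ge m (F f x γ))
    (hxy : ∀ q < γ, cf y q = cf x q) :
    Ge m (F f y γ) ∧ cf (F f y γ) m = tau (cf y γ - cf x γ) (cf (F f x γ) m) := by
  set a := cf y γ - cf x γ with ha
  set r : S A := hp (-γ) * (y - (x + S.sg γ a)) with hr
  have hy : y = x + S.sg γ a + hp γ * r := by
    rw [hr, ← mul_assoc, ← hp_add, add_neg_cancel, hp_zero, one_mul]
    abel
  have hm' : Ge m (F f (x + S.sg γ a) γ) := by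
    rw [F_transl]
    intro q hq
    rw [cf_map, hm q hq, map_zero]
  have hr0 : ∀ q ≤ 0, cf r q = 0 := by
    intro q hq
    rw [hr, cf_hp_mul, cf_sub, cf_add, cf_sg]
    rcases eq_or_lt_of_le hq with h | h
    · subst h
      rw [if_pos (by ring)]
      have h1 : (0 : ℚ) - -γ = γ := by ring
      rw [h1, ha]
      ring
    · rw [if_neg (by intro h2; linarith), hxy _ (by linarith)]
      ring
  have hp' : ∀ q ≤ m, cf (F f y γ) q = tau a (cf (F f x γ) q) := by
    intro q hq
    have h1 := pert f (x + S.sg γ a) r γ m hm' hr0 hq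
    rw [← hy, F_transl, cf_map] at h1
    exact h1
  refine ⟨fun q hq => ?_, hp' m le_rfl⟩
  rw [hp' q hq.le, hm q hq, map_zero]

end pert

end Pool.Agent.L7h73.AC
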