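import Pool.Agent.L7h73.AC.Pert

/-!
# Roots in the star ring
-/

set_option autoImplicit false
set_option linter.unusedSectionVars false

namespace Pool.Agent.L7h73.AC

universe u v w x

open MvPolynomial S
open Pool.Agent.Results.MP_4b1745_al.OneVariable (FreeOver const var lift lift_const lift_var induct
  evalAt AlgClosedIn)

attribute [-instance] HahnSeries.powerSeriesAlgebra

section root
variable {A : Type u} [Field A] [CharZero A] [Diff2 A]

/-- `γ` is the critical exponent of `f` at `x` -/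
def Crit (f : FreeOver (PK A) (S A) Unit) (x : S A) (γ m : ℚ) : Prop :=
  Ge m (F f x γ) ∧ compP (w1 : Unit → ℕ) 0 (cf (F f x γ) m) ≠ 0 ∧
    ∃ k ≠ 0, compP (w1 : Unit → ℕ) k (cf (F f x γ) m) ≠ 0

variable (f : FreeOver (PK A) (S A) Unit)

theorem ε_F (x : S A) : S.map ε isDiff_ε (F f x 0) = ev (RingHom.id A) IsDiff.id x f := by
  rw [F, map_ev]
  refine ev_congr _ (RingHom.ext fun b => ε_C b) ?_ f
  rw [map_add, map_mul, uv, map_sg, ε_X, sg_zero, mul_zero, add_zero]
  ext1 q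
  rw [cf_map, cf_map, ε_C]

theorem comp_zero_F (x : S A) :
    comp (w1 : Unit → ℕ) 0 (F f x 0) = em Unit (ev (RingHom.id A) IsDiff.id x f) := by
  rw [comp_zero_w1, ε_F]

theorem em_ne_zero {a : S A} (ha : a ≠ 0) : em Unit a ≠ 0 := by
  intro h
  apply ha
  ext1 q
  have h1 : cf (em Unit a) q = 0 := by rw [h]; rfl
  rw [cf_map, C_eq_zero] at h1
  exact h1

theorem exists_crit (x : S A) (hx : ev (RingHom.id A) IsDiff.id x f ≠ 0)
    (hf : ∃ k ≠ 0, comp (w1 : Unit → ℕ) k (F f x 0) ≠ 0) : ∃ γ m, Crit f x γ m := by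
  classical
  obtain ⟨N, hN⟩ := exists_degLe f x
  obtain ⟨v0, hv0, hv0'⟩ : ∃ v0, Ge v0 (comp (w1 : Unit → ℕ) 0 (F f x 0)) ∧
      cf (comp (w1 : Unit → ℕ) 0 (F f x 0)) v0 ≠ 0 := by
    refine exists_order ?_
    rw [comp_zero_F]
    exact em_ne_zero hx
  let T : Finset ℕ := (Finset.Icc 1 N).filter fun k => comp (w1 : Unit → ℕ) k (F f x 0) ≠ 0
  have hT : T.Nonempty := by
    obtain ⟨k, hk, hk'⟩ := hf
    refine ⟨k, ?_⟩
    rw [Finset.mem_filter, Finset.mem_Icc]
    refine ⟨⟨Nat.pos_of_ne_zero hk, ?_⟩, hk'⟩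
    by_contra h
    exact hk' (hN k (by omega))
  have hv : ∀ k, ∃ v, k ∈ T → Ge v (comp (w1 : Unit → ℕ) k (F f x 0)) ∧
      cf (comp (w1 : Unit → ℕ) k (F f x 0)) v ≠ 0 := by
    intro k
    by_cases hk : k ∈ T
    · obtain ⟨v, hv⟩ := exists_order (Finset.mem_filter.mp hk).2
      exact ⟨v, fun _ => hv⟩
    · exact ⟨0, fun h => absurd h hk⟩
  choose v hv using hv
  obtain ⟨k0, hk0, hmax⟩ := Finset.exists_max_image T (fun k => (v0 - v k) / k) hT
  have hk0' : 1 ≤ k0 := (Finset.mem_Icc.mp (Finset.mem_filter.mp hk0).1).1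
  have hcast : ∀ k ∈ T, (0 : ℚ) < k := fun k hk => by
    have : 1 ≤ k := (Finset.mem_Icc.mp (Finset.mem_filter.mp hk).1).1
    exact_mod_cast this
  set γ : ℚ := (v0 - v k0) / k0 with hγ
  have hsc : ∀ (k : ℕ) (q : ℚ), compP (w1 : Unit → ℕ) k (cf (F f x γ) q) =
      cf (comp (w1 : Unit → ℕ) k (F f x 0)) (q - k * γ) := by
    intro k q
    rw [scale f x γ 0 k q, sub_zero]
    rfl
  refine ⟨γ, v0, ?_, ?_, k0, by omega, ?_⟩
  · intro q hq
    refine compP_ext (w1 : Unit → ℕ) fun k => ?_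
    rw [hsc, map_zero]
    by_cases hk : k = 0
    · subst hk
      refine hv0 _ ?_
      simpa using hq
    · by_cases hkT : k ∈ T
      · refine (hv k hkT).1 _ ?_
        have h1 := hmax k hkT
        have h2 := hcast k hkT
        rw [div_le_iff₀ h2] at h1
        nlinarith
      · have h1 : comp (w1 : Unit → ℕ) k (F f x 0) = 0 := by
          by_contra h2
          apply hkT
          rw [Finset.mem_filter, Finset.mem_Icc]
          refine ⟨⟨Nat.pos_of_ne_zero hk, ?_⟩, h2⟩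
          by_contra h
          exact h2 (hN k (by omega))
        rw [h1, cf_zero]
  · rw [hsc]
    simpa using hv0'
  · rw [hsc]
    have h1 : v0 - k0 * γ = v k0 := by
      rw [hγ, mul_div_cancel₀ _ (hcast k0 hk0).ne']
      ring
    rw [h1]
    exact (hv k0 hk0).2

/-- monotonicity of the critical exponent -/
theorem crit_mono {y : S A} {δ m' γ' m'' : ℚ} (h1 : Ge m' (F f y δ))
    (h2 : ∃ k ≠ 0, compP (w1 : Unit → ℕ) k (cf (F f y δ) m') ≠ 0) (h3 : Crit f y γ' m'') :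
    δ ≤ γ' ∧ (compP (w1 : Unit → ℕ) 0 (cf (F f y δ) m') = 0 → δ < γ') := by
  obtain ⟨k, hk, hk'⟩ := h2
  obtain ⟨h3, h4, -⟩ := h3
  have hk0 : (0 : ℚ) < k := by exact_mod_cast Nat.pos_of_ne_zero hk
  have h5 : compP (w1 : Unit → ℕ) 0 (cf (F f y δ) m'') ≠ 0 := by
    rw [scale f y δ γ' 0 m'']
    simpa using h4
  have h6 : m' ≤ m'' := by
    by_contra h7
    rw [h1 _ (not_le.mp h7), map_zero] at h5
    exact h5 rfl
  have h7 : compP (w1 : Unit → ℕ) k (cf (F f y γ') (m' - k * (δ - γ'))) ≠ 0 := by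
    rwa [← scale f y δ γ' k m']
  have h8 : m'' ≤ m' - k * (δ - γ') := by
    by_contra h9
    rw [h3 _ (not_le.mp h9), map_zero] at h7
    exact h7 rfl
  constructor
  · by_contra h9
    nlinarith [not_le.mp h9]
  · intro h9
    have h10 : m' ≠ m'' := by
      rintro rfl
      exact h5 h9
    have h11 := lt_of_le_of_ne h6 h10
    by_contra h12
    nlinarith [not_lt.mp h12]

/-- **Roots.** -/
theorem root (hA : Closed A)
    (hf : ∀ x, ∃ k ≠ 0, comp (w1 : Unit → ℕ) k (F f x 0) ≠ 0) :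
    ∃ x : S A, ev (RingHom.id A) IsDiff.id x f = 0 := by
  classical
  have hcrit : ∀ x, ∃ γ, ev (RingHom.id A) IsDiff.id x f ≠ 0 → ∃ m, Crit f x γ m := by
    intro x
    by_cases hx : ev (RingHom.id A) IsDiff.id x f = 0
    · exact ⟨0, fun h => absurd hx h⟩
    · obtain ⟨γ, m, h⟩ := exists_crit f x hx (hf x)
      exact ⟨γ, fun _ => ⟨m, h⟩⟩
  choose g hg using hcrit
  let ω : S A → WithTop ℚ := fun x => if ev (RingHom.id A) IsDiff.id x f = 0 then ⊤ else (g x : WithTop ℚ)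
  have hω0 : ∀ x, ev (RingHom.id A) IsDiff.id x f = 0 → ω x = ⊤ := fun x hx => if_pos hx
  have hω1 : ∀ x, ev (RingHom.id A) IsDiff.id x f ≠ 0 → ω x = g x := fun x hx => if_neg hx
  have hω2 : ∀ x, ω x = ⊤ → ev (RingHom.id A) IsDiff.id x f = 0 := by
    intro x hx
    by_contra h
    rw [hω1 x h] at hx
    exact WithTop.coe_ne_top hx
  suffices h : ∃ x, ω x = ⊤ by
    obtain ⟨x, hx⟩ := h
    exact ⟨x, hω2 x hx⟩
  refine S.ball ω ?_ ?_
  · intro x y hxy
    by_cases hx : ev (RingHom.id A) IsDiff.id x f = 0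
    · rw [hω0 x hx] at hxy
      have : y = x := S.ext fun q => hxy q (WithTop.coe_lt_top q)
      rw [this]
    · obtain ⟨m, hm⟩ := hg x hx
      rw [hω1 x hx] at hxy ⊢
      by_cases hy : ev (RingHom.id A) IsDiff.id y f = 0
      · rw [hω0 y hy]
        exact le_top
      · rw [hω1 y hy]
        obtain ⟨m', hm'⟩ := hg y hy
        obtain ⟨h1, h2⟩ := transfer f hm.1 fun q hq => hxy q (WithTop.coe_lt_coe.mpr hq)
        refine WithTop.coe_le_coe.mpr (crit_mono f h1 ?_ hm').1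
        rw [h2]
        refine exists_compP_ne (tau_nonconst ?_)
        rintro ⟨b, hb⟩
        obtain ⟨k, hk, hk'⟩ := hm.2.2
        rw [← hb, compP_C, if_neg hk] at hk'
        exact hk' rfl
  · intro x hx
    have hx' : ev (RingHom.id A) IsDiff.id x f ≠ 0 := fun h => hx (hω0 x h)
    obtain ⟨m, hm⟩ := hg x hx'
    have hΦ : cf (F f x (g x)) m ∉ Set.range (C : A →+* DP A Unit) := by
      rintro ⟨b, hb⟩
      obtain ⟨k, hk, hk'⟩ := hm.2.2
      rw [← hb, compP_C, if_neg hk] at hk'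
      exact hk' rfl
    obtain ⟨a, ha⟩ := hA _ hΦ
    refine ⟨x + S.sg (g x) a, ?_, ?_⟩
    · intro q hq
      rw [hω1 x hx'] at hq
      rw [cf_add, cf_sg, if_neg (WithTop.coe_lt_coe.mp hq).ne, add_zero]
    · by_cases hy : ev (RingHom.id A) IsDiff.id (x + S.sg (g x) a) f = 0
      · rw [hω0 _ hy]
        exact lt_top_iff_ne_top.mpr hx
      · rw [hω1 _ hy, hω1 x hx']
        obtain ⟨m', hm'⟩ := hg _ hy
        have h1 : Ge m (F f (x + S.sg (g x) a) (g x)) := by
          rw [F_transl]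
          intro q hq
          rw [cf_map, hm.1 q hq, map_zero]
        have h2 : cf (F f (x + S.sg (g x) a) (g x)) m = tau a (cf (F f x (g x)) m) := by
          rw [F_transl, cf_map]
        refine WithTop.coe_lt_coe.mpr ((crit_mono f h1 ?_ hm').2 ?_)
        · rw [h2]
          exact exists_compP_ne (tau_nonconst hΦ)
        · rw [h2, compP_zero_w1, ε_tau, ha, map_zero]

end root

end Pool.Agent.L7h73.AC
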