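import Pool.Agent.L7h73.AC.Root
import Pool.Agent.L7h97.AC.NoGPI

/-!
# Evaluation at a differential indeterminate is injective
-/

set_option autoImplicit false
set_option linter.unusedSectionVars false

namespace Pool.Agent.L7h73.AC

universe u v w x

open MvPolynomial
open Pool.Agent.Results.MP_4b1745_al.OneVariable (FreeOver const var lift lift_const lift_var induct
  evalAt AlgClosedIn)

attribute [-instance] HahnSeries.powerSeriesAlgebra

section span
variable {A : Type u} [Field A] [CharZero A] [Diff2 A] {ι : Type v}

/-- the monomials `e i x e j x ...` in the free product -/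
noncomputable def monF (e : ι → S A) : ι → List ι → FreeOver (PK A) (S A) Unit
  | i, [] => const (PK A) (S A) Unit (e i)
  | i, j :: l => const (PK A) (S A) Unit (e i) * var (PK A) (S A) Unit () * monF e j l

theorem const_iota (p : PK A) : const (PK A) (S A) Unit (iota p) = algebraMap (PK A) _ p :=
  (const (PK A) (S A) Unit).commutes p

theorem const_iota_comm (p : PK A) (g : FreeOver (PK A) (S A) Unit) :
    const (PK A) (S A) Unit (iota p) * g = g * const (PK A) (S A) Unit (iota p) := by
  rw [const_iota]
  exact Algebra.commutes p g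

/-- `f` is a linear combination of the monomials -/
def Rep (e : ι → S A) (f : FreeOver (PK A) (S A) Unit) : Prop :=
  ∃ c : (ι × List ι) →₀ PK A,
    f = c.sum fun l p => const (PK A) (S A) Unit (iota p) * monF e l.1 l.2

theorem Rep.zero (e : ι → S A) : Rep e 0 := ⟨0, by rw [Finsupp.sum_zero_index]⟩

theorem Rep.add {e : ι → S A} {f g : FreeOver (PK A) (S A) Unit} (hf : Rep e f) (hg : Rep e g) :
    Rep e (f + g) := by
  classical
  obtain ⟨c, rfl⟩ := hf
  obtain ⟨d, rfl⟩ := hg
  refine ⟨c + d, ?_⟩
  rw [Finsupp.sum_add_index']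
  · intro l; rw [map_zero, map_zero, zero_mul]
  · intro l p q; rw [map_add, map_add, add_mul]

theorem Rep.sum {e : ι → S A} {κ : Type w} (s : Finset κ) (f : κ → FreeOver (PK A) (S A) Unit)
    (h : ∀ i ∈ s, Rep e (f i)) : Rep e (∑ i ∈ s, f i) := by
  classical
  induction s using Finset.induction_on with
  | empty => exact Rep.zero e
  | insert i s hi ih =>
    rw [Finset.sum_insert hi]
    exact (h i (Finset.mem_insert_self _ _)).add (ih fun j hj => h j (Finset.mem_insert_of_mem hj))

theorem Rep.single (e : ι → S A) (p : PK A) (i : ι) (l : List ι) :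
    Rep e (const (PK A) (S A) Unit (iota p) * monF e i l) := by
  refine ⟨Finsupp.single (i, l) p, ?_⟩
  rw [Finsupp.sum_single_index]
  rw [map_zero, map_zero, zero_mul]

theorem Rep.mon (e : ι → S A) (i : ι) (l : List ι) : Rep e (monF e i l) := by
  have := Rep.single e 1 i l
  rwa [map_one, map_one, one_mul] at this

theorem Rep.cmul {e : ι → S A} {f : FreeOver (PK A) (S A) Unit} (hf : Rep e f) (p : PK A) :
    Rep e (const (PK A) (S A) Unit (iota p) * f) := by
  obtain ⟨c, rfl⟩ := hf
  rw [Finsupp.sum, Finset.mul_sum]
  refine Rep.sum _ _ fun l _ => ?_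
  rw [← mul_assoc, ← map_mul, ← map_mul]
  exact Rep.single e _ _ _

theorem Rep.lmul {e : ι → S A} {f g : FreeOver (PK A) (S A) Unit}
    (hg : ∀ i l, Rep e (g * monF e i l)) (hf : Rep e f) : Rep e (g * f) := by
  obtain ⟨c, rfl⟩ := hf
  rw [Finsupp.sum, Finset.mul_sum]
  refine Rep.sum _ _ fun l _ => ?_
  rw [← mul_assoc, ← const_iota_comm, mul_assoc]
  exact (hg _ _).cmul _

theorem const_repr (b : Module.Basis ι (PK A) (S A)) (a : S A) :
    const (PK A) (S A) Unit a = ∑ i ∈ (b.repr a).support,
      const (PK A) (S A) Unit (iota (b.repr a i)) * const (PK A) (S A) Unit (b i) := by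
  conv_lhs => rw [← b.linearCombination_repr a, Finsupp.linearCombination_apply]
  rw [Finsupp.sum, map_sum]
  refine Finset.sum_congr rfl fun i _ => ?_
  rw [← map_mul]
  rfl

theorem Rep.const_mul (b : Module.Basis ι (PK A) (S A)) (a : S A)
    (g : FreeOver (PK A) (S A) Unit) (hg : ∀ j, Rep b (const (PK A) (S A) Unit (b j) * g)) :
    Rep b (const (PK A) (S A) Unit a * g) := by
  rw [const_repr b a, Finset.sum_mul]
  refine Rep.sum _ _ fun i _ => ?_
  rw [mul_assoc]
  exact (hg i).cmul _

theorem rep (b : Module.Basis ι (PK A) (S A)) (f : FreeOver (PK A) (S A) Unit) : Rep b f := by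
  have key : ∀ f g : FreeOver (PK A) (S A) Unit, Rep b g → Rep b (f * g) := by
    intro f
    induction f using induct with
    | hc a =>
      refine fun g hg => Rep.lmul (fun i l => ?_) hg
      cases l with
      | nil =>
        rw [monF, ← map_mul, ← mul_one (const (PK A) (S A) Unit (a * b i))]
        refine Rep.const_mul b _ _ fun j => ?_
        rw [mul_one]
        exact Rep.mon b j []
      | cons j l =>
        rw [monF, mul_assoc, ← mul_assoc, ← map_mul]
        refine Rep.const_mul b _ _ fun k => ?_
        rw [← mul_assoc]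
        exact Rep.mon b k (j :: l)
    | hv i =>
      refine fun g hg => Rep.lmul (fun j l => ?_) hg
      rw [← one_mul (var (PK A) (S A) Unit i * monF b j l), ← map_one (const (PK A) (S A) Unit)]
      refine Rep.const_mul b _ _ fun k => ?_
      rw [← mul_assoc]
      exact Rep.mon b k (j :: l)
    | hadd f f' hf hf' =>
      intro g hg
      rw [add_mul]
      exact (hf g hg).add (hf' g hg)
    | hmul f f' hf hf' =>
      intro g hg
      rw [mul_assoc]
      exact hf _ (hf' g hg)
  rw [← mul_one f]
  refine key f 1 ?_
  rw [← one_mul (1 : FreeOver (PK A) (S A) Unit), ← map_one (const (PK A) (S A) Unit)]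
  conv => arg 2; arg 2; rw [map_one]
  refine Rep.const_mul b _ _ fun j => ?_
  rw [mul_one]
  exact Rep.mon b j []

theorem ev_monF (e : ι → S A) (i : ι) (l : List ι) :
    ev C isDiff_C S.uu (monF e i l) = S.mon e i l := by
  induction l generalizing i with
  | nil => rw [monF, S.mon, ev_const]
  | cons j l ih => rw [monF, S.mon, map_mul, map_mul, ev_const, ev_var, ih]

theorem iota_injective : Function.Injective (iota (A := A)) := by
  intro p q h
  ext r
  exact congrArg (fun z => S.cf z r) h

/-- evaluation at the indeterminate is injective -/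
theorem ev_uu_injective (f : FreeOver (PK A) (S A) Unit) (h : ev C isDiff_C S.uu f = 0) :
    f = 0 := by
  classical
  let b := Module.Basis.ofVectorSpace (PK A) (S A)
  obtain ⟨c, hc⟩ := rep b f
  have hz := S.no_gpi b ?_ (c.mapRange iota (map_zero iota)) ?_ ?_
  · have hc0 : c = 0 := by
      ext1 l
      apply iota_injective
      have := DFunLike.congr_fun hz l
      rw [Finsupp.mapRange_apply] at this
      rw [this, Finsupp.zero_apply, Finsupp.zero_apply, map_zero]
    rw [hc, hc0, Finsupp.sum_zero_index]
  · intro d hd hd0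
    have h1 : ∀ i, ∃ p : PK A, iota p = d i := fun i => exists_iota (hd i).1 (hd i).2
    choose p hp using h1
    have hfin : ∀ i, i ∉ d.support → p i = 0 := fun i hi => by
      apply iota_injective
      rw [hp, map_zero, Finsupp.notMem_support_iff.mp hi]
    have h2 : ∑ i ∈ d.support, p i • b i = 0 := by
      rw [← hd0, Finsupp.sum]
      refine Finset.sum_congr rfl fun i _ => ?_
      rw [smul_eq, hp]
    have h3 := linearIndependent_iff'.mp b.linearIndependent d.support p h2
    ext1 i
    by_cases hi : i ∈ d.support
    · rw [← hp, h3 i hi, map_zero, Finsupp.zero_apply]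
    · rw [Finsupp.notMem_support_iff.mp hi, Finsupp.zero_apply]
  · intro l
    rw [Finsupp.mapRange_apply]
    exact ⟨D1_iota _, D2_iota _⟩
  · rw [Finsupp.sum_mapRange_index (fun l => by simp), ← h, hc, Finsupp.sum, Finsupp.sum, map_sum]
    refine Finset.sum_congr rfl fun l _ => ?_
    rw [map_mul, ev_const, ev_monF]

/-- the shift `x ↦ a + x` of the free product -/
noncomputable def shift (a : S A) : FreeOver (PK A) (S A) Unit →ₐ[PK A] FreeOver (PK A) (S A) Unit :=
  lift (const (PK A) (S A) Unit) fun i => const (PK A) (S A) Unit a + var (PK A) (S A) Unit i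

theorem shift_const (a b : S A) :
    shift a (const (PK A) (S A) Unit b) = const (PK A) (S A) Unit b := lift_const _ _ _

theorem shift_var (a : S A) (i : Unit) : shift a (var (PK A) (S A) Unit i) =
    const (PK A) (S A) Unit a + var (PK A) (S A) Unit i := lift_var _ _ _

theorem shift_shift (a : S A) (f : FreeOver (PK A) (S A) Unit) : shift (-a) (shift a f) = f := by
  induction f using induct with
  | hc b => rw [shift_const, shift_const]
  | hv i => rw [shift_var, map_add, shift_const, shift_var, map_neg, add_neg_cancel_left]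
  | hadd f g hf hg => rw [map_add, map_add, hf, hg]
  | hmul f g hf hg => rw [map_mul, map_mul, hf, hg]

theorem ev_shift (a : S A) (f : FreeOver (PK A) (S A) Unit) :
    ev C isDiff_C S.uu (shift a f) = F f a 0 := by
  have : (ev C isDiff_C S.uu).comp (shift a).toRingHom = ev C isDiff_C (em Unit a + S.hp 0 * uv ()) := by
    apply free_hom_ext
    · intro b
      change ev C isDiff_C S.uu (shift a _) = _
      rw [shift_const, ev_const, ev_const]
    · change ev C isDiff_C S.uu (shift a _) = _
      rw [shift_var, map_add, ev_const, ev_var, ev_var, S.hp_zero, one_mul]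
      rfl
  exact congrArg (fun g : FreeOver (PK A) (S A) Unit →+* S (DP A Unit) => g f) this

/-- nonconstancy everywhere -/
theorem nonconst (f : FreeOver (PK A) (S A) Unit)
    (hf : f ∉ Set.range (const (PK A) (S A) Unit)) (x : S A) :
    ∃ k ≠ 0, comp (w1 : Unit → ℕ) k (F f x 0) ≠ 0 := by
  by_contra hcon
  push Not at hcon
  have h1 := eq_em_of_comp hcon
  set c := S.map ε isDiff_ε (F f x 0) with hc
  have h2 : ev C isDiff_C S.uu (shift x f - const (PK A) (S A) Unit c) = 0 := by
    rw [map_sub, ev_shift, ev_const, h1]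
    exact sub_self _
  have h3 := sub_eq_zero.mp (ev_uu_injective _ h2)
  apply hf
  refine ⟨c, ?_⟩
  rw [← shift_shift x f, h3, shift_const]

/-- **The star ring over a closed field is algebraically closed for equations in one unknown.** -/
theorem closed_one (hA : Closed A) : AlgClosedIn (PK A) (S A) Unit := by
  intro f hf
  obtain ⟨x, hx⟩ := root f hA (nonconst f hf)
  exact ⟨fun _ => x, (ev_id (fun _ => x) f).symm.trans hx⟩

theorem not_surjective (hA : Closed A) : ¬ Function.Surjective (algebraMap (PK A) (S A)) := by
  intro hs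
  obtain ⟨y, hy⟩ := hA (X ((), 1, 0) - 1) (by
    rintro ⟨c, hc⟩
    have h1 := congrArg (coeff (Finsupp.single ((), 1, 0) 1)) hc
    have h0 : (0 : Unit × ℕ × ℕ →₀ ℕ) ≠ Finsupp.single ((), 1, 0) 1 := by
      intro h
      simpa using DFunLike.congr_fun h ((), 1, 0)
    rw [coeff_sub, coeff_C, coeff_X, coeff_one, if_neg h0, if_neg h0, if_pos rfl, sub_zero] at h1
    exact zero_ne_one h1)
  rw [map_sub, DP.lift_X, map_one] at hy
  obtain ⟨p, hp⟩ := hs (S.sg 0 y)
  have h2 : S.D1 (S.sg 0 y) = 0 := by
    rw [← hp]
    exact D1_iota p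
  have h3 : d1 y = 0 := by
    have := congrArg (fun z => S.cf z 0) h2
    simpa using this
  have h4 : d1 y - 1 = 0 := hy
  rw [h3, zero_sub, neg_eq_zero] at h4
  exact one_ne_zero h4

end span

end Pool.Agent.L7h73.AC
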