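import Pool.Agent.L7h73.AC.Diff

/-!
# Preparations for the star product

`hmap f`: coefficientwise additive maps of Hahn series; `iter`, `dd`: iterates and divided powers of
additive maps; the Leibniz rule for them; the identity behind the associativity of the star product.
-/

set_option autoImplicit false

namespace Pool.Agent.L7h73.AC

universe u v w

section hmap
variable {B : Type u} {C : Type v} [AddCommGroup B] [AddCommGroup C]

/-- apply an additive map to the coefficients -/
noncomputable def hmap (f : B →+ C) : HahnSeries ℚ B →+ HahnSeries ℚ C where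
  toFun x := x.map f
  map_zero' := by ext; simp
  map_add' x y := by ext; simp

@[simp] theorem hmap_coeff (f : B →+ C) (x : HahnSeries ℚ B) (q : ℚ) :
    (hmap f x).coeff q = f (x.coeff q) := rfl

theorem hmap_support (f : B →+ C) (x : HahnSeries ℚ B) : (hmap f x).support ⊆ x.support := by
  intro q hq
  rw [HahnSeries.mem_support, hmap_coeff] at hq
  rw [HahnSeries.mem_support]
  intro h
  rw [h, map_zero] at hq
  exact hq rfl

@[simp] theorem hmap_single (f : B →+ C) (q : ℚ) (b : B) :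
    hmap f (HahnSeries.single q b) = HahnSeries.single q (f b) := by
  ext r
  rw [hmap_coeff, HahnSeries.coeff_single, HahnSeries.coeff_single]
  split_ifs <;> simp

theorem hmap_comp {D : Type w} [AddCommGroup D] (g : C →+ D) (f : B →+ C) (x : HahnSeries ℚ B) :
    hmap g (hmap f x) = hmap (g.comp f) x := rfl

end hmap

section mul
variable {B : Type u} {C : Type v} [CommRing B] [CommRing C]

theorem coeff_mul_sub (X Y : HahnSeries ℚ B) {s t : Set ℚ} (hs : s.IsPWO) (ht : t.IsPWO)
    (hX : X.support ⊆ s) (hY : Y.support ⊆ t) (q : ℚ) :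
    (X * Y).coeff q = ∑ ij ∈ Finset.antidiagonal hs ht q, X.coeff ij.1 * Y.coeff ij.2 := by
  rw [HahnSeries.coeff_mul_left' hs hX]
  refine Finset.sum_subset (Finset.antidiagonal_mono_right hY) fun ij h1 h2 => ?_
  rw [Finset.mem_antidiagonal] at h1 h2
  have : ij.2 ∉ Y.support := fun h => h2 ⟨h1.1, h, h1.2.2⟩
  rw [HahnSeries.mem_support, not_not] at this
  rw [this, mul_zero]

/-- a product rule for the coefficients gives a product rule for Hahn series -/
theorem hmap_mul {ι : Type w} (T : Finset ι) (g : B →+ C) (f k : ι → B →+ C)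
    (h : ∀ x y, g (x * y) = ∑ t ∈ T, f t x * k t y) (X Y : HahnSeries ℚ B) :
    hmap g (X * Y) = ∑ t ∈ T, hmap (f t) X * hmap (k t) Y := by
  ext q
  rw [hmap_coeff, HahnSeries.coeff_sum, HahnSeries.coeff_mul, map_sum]
  have h1 : ∀ t ∈ T, (hmap (f t) X * hmap (k t) Y).coeff q =
      ∑ ij ∈ Finset.antidiagonal X.isPWO_support Y.isPWO_support q,
        f t (X.coeff ij.1) * k t (Y.coeff ij.2) := fun t _ =>
    coeff_mul_sub _ _ _ _ (hmap_support _ _) (hmap_support _ _) q
  rw [Finset.sum_congr rfl h1, Finset.sum_comm]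
  exact Finset.sum_congr rfl fun ij _ => h _ _

end mul

section iter
variable {B : Type u} [AddCommGroup B]

/-- iterates of an additive map -/
def iter (f : B →+ B) (n : ℕ) : B →+ B where
  toFun := f^[n]
  map_zero' := iterate_map_zero f n
  map_add' := iterate_map_add f n

@[simp] theorem iter_apply (f : B →+ B) (n : ℕ) (b : B) : iter f n b = f^[n] b := rfl

variable [Module ℚ B]

/-- divided powers of an additive map -/
noncomputable def dd (f : B →+ B) (n : ℕ) : B →+ B where
  toFun b := ((n.factorial : ℚ)⁻¹) • f^[n] b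
  map_zero' := by rw [iterate_map_zero, smul_zero]
  map_add' x y := by rw [iterate_map_add, smul_add]

theorem dd_apply (f : B →+ B) (n : ℕ) (b : B) : dd f n b = ((n.factorial : ℚ)⁻¹) • f^[n] b := rfl

@[simp] theorem dd_zero_apply (f : B →+ B) (b : B) : dd f 0 b = b := by
  simp [dd_apply]

theorem dd_succ (f : B →+ B) (n : ℕ) (b : B) :
    ((n + 1 : ℕ) : ℚ) • dd f (n + 1) b = f (dd f n b) := by
  rw [dd_apply, dd_apply, map_rat_smul f, smul_smul, Function.iterate_succ_apply',
    Nat.factorial_succ]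
  congr 1
  have : ((n + 1 : ℕ) : ℚ) ≠ 0 := by positivity
  push_cast at this ⊢
  field_simp

theorem iter_eq (f : B →+ B) (n : ℕ) (b : B) : f^[n] b = (n.factorial : ℚ) • dd f n b := by
  rw [dd_apply, smul_smul, mul_inv_cancel₀ (by positivity), one_smul]

end iter

section leib
variable {B : Type u} [CommRing B] [Algebra ℚ B]

theorem dd_leib (δ : B →+ B) (hδ : ∀ a b, δ (a * b) = δ a * b + a * δ b) (n : ℕ) (a b : B) :
    dd δ n (a * b) = ∑ ij ∈ Finset.HasAntidiagonal.antidiagonal n, dd δ ij.1 a * dd δ ij.2 b := by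
  induction n with
  | zero => simp
  | succ n ih =>
    have h0 : ((n + 1 : ℕ) : ℚ) ≠ 0 := by positivity
    have h1 : ((n + 1 : ℕ) : ℚ) • dd δ (n + 1) (a * b) =
        ((n + 1 : ℕ) : ℚ) • ∑ ij ∈ Finset.HasAntidiagonal.antidiagonal (n + 1), dd δ ij.1 a * dd δ ij.2 b := by
      rw [dd_succ, ih, map_sum, Finset.smul_sum]
      have h2 : ∑ ij ∈ Finset.HasAntidiagonal.antidiagonal (n + 1), ((n + 1 : ℕ) : ℚ) • (dd δ ij.1 a * dd δ ij.2 b)
          = ∑ ij ∈ Finset.HasAntidiagonal.antidiagonal (n + 1), (ij.1 : ℚ) • (dd δ ij.1 a * dd δ ij.2 b)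
          + ∑ ij ∈ Finset.HasAntidiagonal.antidiagonal (n + 1), (ij.2 : ℚ) • (dd δ ij.1 a * dd δ ij.2 b) := by
        rw [← Finset.sum_add_distrib]
        refine Finset.sum_congr rfl fun ij hij => ?_
        rw [← add_smul]
        congr 1
        have := Finset.HasAntidiagonal.mem_antidiagonal.mp hij
        rw [← this]
        push_cast
        ring
      rw [h2, Finset.Nat.sum_antidiagonal_succ, Finset.Nat.sum_antidiagonal_succ']
      simp only [Nat.cast_zero, zero_smul, zero_add]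
      rw [← Finset.sum_add_distrib]
      refine Finset.sum_congr rfl fun ij _ => ?_
      rw [hδ, ← dd_succ, ← dd_succ, smul_mul_assoc, mul_smul_comm]
    have h3 := congrArg (fun x => ((n + 1 : ℕ) : ℚ)⁻¹ • x) h1
    simp only [smul_smul, inv_mul_cancel₀ h0, one_smul] at h3
    exact h3


omit [Algebra ℚ B] in
open Finset.HasAntidiagonal in
theorem triple (N : ℕ) (G : ℕ → ℕ → ℕ → B) :
    ∑ mn ∈ antidiagonal N, ∑ ij ∈ antidiagonal mn.1, G ij.1 ij.2 mn.2 =
      ∑ mn ∈ antidiagonal N, ∑ ij ∈ antidiagonal mn.1, G ij.2 mn.2 ij.1 := by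
  rw [Finset.sum_sigma', Finset.sum_sigma']
  refine Finset.sum_bij' (fun x _ => ⟨(x.2.1 + x.1.2, x.2.2), (x.1.2, x.2.1)⟩)
    (fun x _ => ⟨(x.2.2 + x.1.2, x.2.1), (x.2.2, x.1.2)⟩) ?_ ?_ ?_ ?_ ?_
  · rintro ⟨⟨m, n⟩, i, j⟩ h
    simp only [Finset.mem_sigma, mem_antidiagonal] at h ⊢
    omega
  · rintro ⟨⟨m, n⟩, i, j⟩ h
    simp only [Finset.mem_sigma, mem_antidiagonal] at h ⊢
    exact ⟨by omega, trivial⟩
  · rintro ⟨⟨m, n⟩, i, j⟩ h
    simp only [Finset.mem_sigma, mem_antidiagonal] at h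
    obtain ⟨h1, h2⟩ := h
    subst h2
    rfl
  · rintro ⟨⟨m, n⟩, i, j⟩ h
    simp only [Finset.mem_sigma, mem_antidiagonal] at h
    obtain ⟨h1, h2⟩ := h
    subst h2
    simp [add_comm]
  · rintro ⟨⟨m, n⟩, i, j⟩ h
    rfl

variable [Diff2 B]

omit [Algebra ℚ B] in
theorem iter_comm (n k : ℕ) (b : B) : d1^[n] (d2^[k] b) = d2^[k] (d1^[n] b) := by
  induction k generalizing b with
  | zero => rfl
  | succ k ih =>
    rw [Function.iterate_succ_apply', Function.iterate_succ_apply', ← ih, d2_iter_d1]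

open Finset.HasAntidiagonal in
/-- the identity behind the associativity of the star product -/
theorem assoc_id (N : ℕ) (a b c : B) :
    ∑ mn ∈ antidiagonal N, d1^[mn.1] (d1^[mn.2] a * dd d2 mn.2 b) * dd d2 mn.1 c =
      ∑ mn ∈ antidiagonal N, d1^[mn.1] a * dd d2 mn.1 (d1^[mn.2] b * dd d2 mn.2 c) := by
  let G : ℕ → ℕ → ℕ → B := fun x y z =>
    (((x.factorial : ℚ)⁻¹) * ((y.factorial : ℚ)⁻¹) * ((z.factorial : ℚ)⁻¹)) •
      (d1^[x + z] a * d1^[y] (d2^[z] b) * d2^[x + y] c)
  have h1 : ∀ mn ∈ antidiagonal N, d1^[mn.1] (d1^[mn.2] a * dd d2 mn.2 b) * dd d2 mn.1 c =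
      ∑ ij ∈ antidiagonal mn.1, G ij.1 ij.2 mn.2 := by
    rintro ⟨m, n⟩ -
    dsimp only
    rw [iter_eq, dd_leib _ leib1, Finset.smul_sum, Finset.sum_mul]
    refine Finset.sum_congr rfl fun ij hij => ?_
    have hm := mem_antidiagonal.mp hij
    subst hm
    simp only [G, dd_apply, map_rat_smul, smul_mul_assoc, mul_smul_comm, smul_smul]
    rw [← Function.iterate_add_apply]
    congr 1
    have : ((ij.1 + ij.2).factorial : ℚ) ≠ 0 := by positivity
    field_simp
  have h2 : ∀ mn ∈ antidiagonal N, d1^[mn.1] a * dd d2 mn.1 (d1^[mn.2] b * dd d2 mn.2 c) =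
      ∑ ij ∈ antidiagonal mn.1, G ij.2 mn.2 ij.1 := by
    rintro ⟨m, n⟩ -
    dsimp only
    rw [dd_leib _ leib2, Finset.mul_sum]
    refine Finset.sum_congr rfl fun ij hij => ?_
    have hm := mem_antidiagonal.mp hij
    subst hm
    simp only [G, dd_apply, map_rat_smul, smul_mul_assoc, mul_smul_comm, smul_smul]
    rw [← Function.iterate_add_apply, iter_comm, add_comm ij.1 ij.2, mul_assoc (d1^[_] a)]
    congr 1
    ring
  rw [Finset.sum_congr rfl h1, Finset.sum_congr rfl h2]
  exact triple N G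

end leib

end Pool.Agent.L7h73.AC
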