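import Pool.Agent.L7h73.AC.Star1

/-!
# The star product of Hahn series

`star a b = ∑ n, h ^ n / n! d1 ^ n a d2 ^ n b`; it is biadditive and associative with unit `1`.
-/

set_option autoImplicit false
set_option linter.unusedSectionVars false

namespace Pool.Agent.L7h73.AC

universe u v w

open HahnSeries
open scoped Pointwise

attribute [-instance] HahnSeries.powerSeriesAlgebra

section diff
variable {B : Type u} [CommRing B] [Diff2 B]

omit [Diff2 B] in
theorem hmap_leib (δ : B →+ B) (hδ : ∀ a b, δ (a * b) = δ a * b + a * δ b)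
    (X Y : HahnSeries ℚ B) : hmap δ (X * Y) = hmap δ X * Y + X * hmap δ Y := by
  have h := hmap_mul (Finset.univ : Finset Bool) δ
    (fun t => if t then δ else AddMonoidHom.id B) (fun t => if t then AddMonoidHom.id B else δ)
    (fun x y => by simp [hδ]) X Y
  rw [h]
  simp only [Fintype.univ_bool, Finset.mem_singleton, Bool.true_eq_false, not_false_eq_true,
    Finset.sum_insert, Finset.sum_singleton, if_true, Bool.false_eq_true, if_false]
  rfl

/-- the coefficientwise derivations -/
noncomputable instance instHahn : Diff2 (HahnSeries ℚ B) where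
  d1 := hmap d1
  d2 := hmap d2
  leib1 := hmap_leib d1 leib1
  leib2 := hmap_leib d2 leib2
  comm x := by
    ext q
    simp only [hmap_coeff, Diff2.comm]

@[simp] theorem coeff_d1 (x : HahnSeries ℚ B) (q : ℚ) : (d1 x).coeff q = d1 (x.coeff q) := rfl
@[simp] theorem coeff_d2 (x : HahnSeries ℚ B) (q : ℚ) : (d2 x).coeff q = d2 (x.coeff q) := rfl

@[simp] theorem coeff_iter1 (x : HahnSeries ℚ B) (q : ℚ) (n : ℕ) :
    (d1^[n] x).coeff q = d1^[n] (x.coeff q) := by
  induction n with
  | zero => rfl
  | succ n ih => rw [Function.iterate_succ_apply', Function.iterate_succ_apply', coeff_d1, ih]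

@[simp] theorem coeff_iter2 (x : HahnSeries ℚ B) (q : ℚ) (n : ℕ) :
    (d2^[n] x).coeff q = d2^[n] (x.coeff q) := by
  induction n with
  | zero => rfl
  | succ n ih => rw [Function.iterate_succ_apply', Function.iterate_succ_apply', coeff_d2, ih]

@[simp] theorem coeff_dd2 [Algebra ℚ B] (x : HahnSeries ℚ B) (q : ℚ) (n : ℕ) :
    (dd d2 n x).coeff q = dd d2 n (x.coeff q) := by
  rw [dd_apply, dd_apply, HahnSeries.coeff_smul, coeff_iter2]

theorem supp_iter1 (x : HahnSeries ℚ B) (n : ℕ) : (d1^[n] x).support ⊆ x.support := by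
  intro q hq
  rw [mem_support, coeff_iter1] at hq
  rw [mem_support]
  intro h
  rw [h, iterate_map_zero] at hq
  exact hq rfl

theorem supp_dd2 [Algebra ℚ B] (x : HahnSeries ℚ B) (n : ℕ) : (dd d2 n x).support ⊆ x.support := by
  intro q hq
  rw [mem_support, coeff_dd2] at hq
  rw [mem_support]
  intro h
  rw [h, map_zero] at hq
  exact hq rfl

end diff

theorem exists_bound {Q : Set ℚ} (hQ : Q.IsPWO) (q : ℚ) : ∃ K : ℕ, ∀ n : ℕ, K ≤ n → q - n ∉ Q := by
  rcases Q.eq_empty_or_nonempty with rfl | hne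
  · exact ⟨0, fun n _ h => h⟩
  · refine ⟨⌈q - hQ.isWF.min hne⌉₊ + 1, fun n hn h => ?_⟩
    have h1 := hQ.isWF.not_lt_min hne h
    apply h1
    have h2 : (⌈q - hQ.isWF.min hne⌉₊ : ℚ) + 1 ≤ n := by exact_mod_cast hn
    have h3 := Nat.le_ceil (q - hQ.isWF.min hne)
    linarith

theorem isPWO_nat : (Set.range ((↑) : ℕ → ℚ)).IsPWO := by
  rw [← Set.image_univ]
  exact (Set.IsPWO.of_linearOrder (Set.univ : Set ℕ)).image_of_monotone Nat.mono_cast

section star
variable {B : Type u} [CommRing B] [Algebra ℚ B] [Diff2 B]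

/-- the terms of the star product -/
noncomputable def tm (a b : HahnSeries ℚ B) (n : ℕ) : HahnSeries ℚ B := d1^[n] a * dd d2 n b

theorem tm_support (a b : HahnSeries ℚ B) (n : ℕ) : (tm a b n).support ⊆ a.support + b.support :=
  support_mul_subset.trans (Set.add_subset_add (supp_iter1 a n) (supp_dd2 b n))

theorem tm_coeff_zero {a b : HahnSeries ℚ B} {Q : Set ℚ} (hQ : a.support + b.support ⊆ Q) {n : ℕ}
    {r : ℚ} (h : r ∉ Q) : (tm a b n).coeff r = 0 := by
  by_contra h1
  exact h (hQ (tm_support a b n h1))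

theorem exists_of_finsum {f : ℕ → B} (h : ∑ᶠ n, f n ≠ 0) : ∃ n, f n ≠ 0 := by
  by_contra h1
  push Not at h1
  exact h (finsum_eq_zero_of_forall_eq_zero h1)

/-- the star product -/
noncomputable def star (a b : HahnSeries ℚ B) : HahnSeries ℚ B where
  coeff q := ∑ᶠ n : ℕ, (tm a b n).coeff (q - n)
  isPWO_support' := by
    refine ((a.isPWO_support.add b.isPWO_support).add isPWO_nat).mono ?_
    intro q hq
    obtain ⟨n, hn⟩ := exists_of_finsum hq
    exact ⟨q - n, tm_support a b n hn, n, ⟨n, rfl⟩, by ring⟩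

theorem star_coeff {a b : HahnSeries ℚ B} {Q : Set ℚ} (hQ : a.support + b.support ⊆ Q) {q : ℚ}
    {K : ℕ} (hK : ∀ n : ℕ, K ≤ n → q - n ∉ Q) :
    (star a b).coeff q = ∑ n ∈ Finset.range K, (tm a b n).coeff (q - n) := by
  refine finsum_eq_sum_of_support_subset _ fun n hn => ?_
  rw [Finset.coe_range, Set.mem_Iio]
  by_contra h
  exact hn (tm_coeff_zero hQ (hK n (not_lt.mp h)))

theorem exists_star_coeff (a b : HahnSeries ℚ B) (q : ℚ) : ∃ K : ℕ,
    (∀ n : ℕ, K ≤ n → q - n ∉ a.support + b.support) ∧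
    (star a b).coeff q = ∑ n ∈ Finset.range K, (tm a b n).coeff (q - n) := by
  obtain ⟨K, hK⟩ := exists_bound (a.isPWO_support.add b.isPWO_support) q
  exact ⟨K, hK, star_coeff subset_rfl hK⟩

theorem tm_add_left (a a' b : HahnSeries ℚ B) (n : ℕ) : tm (a + a') b n = tm a b n + tm a' b n := by
  rw [tm, iterate_map_add, add_mul]; rfl

theorem tm_add_right (a b b' : HahnSeries ℚ B) (n : ℕ) : tm a (b + b') n = tm a b n + tm a b' n := by
  rw [tm, map_add, mul_add]; rfl

theorem star_add_left (a a' b : HahnSeries ℚ B) : star (a + a') b = star a b + star a' b := by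
  ext q
  set Q : Set ℚ := (a.support ∪ a'.support) + b.support with hQ
  have hp : Q.IsPWO := (a.isPWO_support.union a'.isPWO_support).add b.isPWO_support
  obtain ⟨K, hK⟩ := exists_bound hp q
  have h1 : (a + a').support + b.support ⊆ Q := Set.add_subset_add (support_add_subset _ _) subset_rfl
  have h2 : a.support + b.support ⊆ Q := Set.add_subset_add Set.subset_union_left subset_rfl
  have h3 : a'.support + b.support ⊆ Q := Set.add_subset_add Set.subset_union_right subset_rfl
  rw [coeff_add, star_coeff h1 hK, star_coeff h2 hK, star_coeff h3 hK, ← Finset.sum_add_distrib]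
  exact Finset.sum_congr rfl fun n _ => by rw [tm_add_left, coeff_add]

theorem star_add_right (a b b' : HahnSeries ℚ B) : star a (b + b') = star a b + star a b' := by
  ext q
  set Q : Set ℚ := a.support + (b.support ∪ b'.support) with hQ
  have hp : Q.IsPWO := a.isPWO_support.add (b.isPWO_support.union b'.isPWO_support)
  obtain ⟨K, hK⟩ := exists_bound hp q
  have h1 : a.support + (b + b').support ⊆ Q := Set.add_subset_add subset_rfl (support_add_subset _ _)
  have h2 : a.support + b.support ⊆ Q := Set.add_subset_add subset_rfl Set.subset_union_left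
  have h3 : a.support + b'.support ⊆ Q := Set.add_subset_add subset_rfl Set.subset_union_right
  rw [coeff_add, star_coeff h1 hK, star_coeff h2 hK, star_coeff h3 hK, ← Finset.sum_add_distrib]
  exact Finset.sum_congr rfl fun n _ => by rw [tm_add_right, coeff_add]

/-- the truncated star product -/
noncomputable def trunc (K : ℕ) (a b : HahnSeries ℚ B) : HahnSeries ℚ B :=
  ∑ n ∈ Finset.range K, single (n : ℚ) (1 : B) * tm a b n

theorem trunc_coeff (K : ℕ) (a b : HahnSeries ℚ B) (q : ℚ) :
    (trunc K a b).coeff q = ∑ n ∈ Finset.range K, (tm a b n).coeff (q - n) := by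
  rw [trunc, coeff_sum]
  exact Finset.sum_congr rfl fun n _ => by rw [coeff_single_mul, one_mul]

theorem mul_congr_left {X X' Y : HahnSeries ℚ B} {q : ℚ}
    (h : ∀ i k, i + k = q → k ∈ Y.support → X.coeff i = X'.coeff i) :
    (X * Y).coeff q = (X' * Y).coeff q := by
  have h1 : ((X - X') * Y).coeff q = 0 := by
    rw [coeff_mul]
    refine Finset.sum_eq_zero fun ij hij => ?_
    rw [Finset.mem_antidiagonal] at hij
    rw [coeff_sub, h ij.1 ij.2 hij.2.2 hij.2.1, sub_self, zero_mul]
  rw [sub_mul, coeff_sub, sub_eq_zero] at h1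
  exact h1

theorem mul_congr_right {X Y Y' : HahnSeries ℚ B} {q : ℚ}
    (h : ∀ i k, i + k = q → i ∈ X.support → Y.coeff k = Y'.coeff k) :
    (X * Y).coeff q = (X * Y').coeff q := by
  rw [mul_comm X, mul_comm X]
  exact mul_congr_left fun i k hik hk => h k i (by rw [add_comm]; exact hik) hk

theorem iter1_single_mul (m n : ℕ) (x : HahnSeries ℚ B) :
    d1^[m] (single (n : ℚ) (1 : B) * x) = single (n : ℚ) (1 : B) * d1^[m] x := by
  ext q
  rw [coeff_iter1, coeff_single_mul, coeff_single_mul, one_mul, one_mul, coeff_iter1]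

theorem dd2_single_mul (m n : ℕ) (x : HahnSeries ℚ B) :
    dd d2 m (single (n : ℚ) (1 : B) * x) = single (n : ℚ) (1 : B) * dd d2 m x := by
  ext q
  rw [coeff_dd2, coeff_single_mul, coeff_single_mul, one_mul, one_mul, coeff_dd2]

theorem regroup {C : Type v} [AddCommMonoid C] (K : ℕ) (t : ℕ → ℕ → C)
    (h : ∀ m n, K ≤ m + n → t m n = 0) :
    ∑ m ∈ Finset.range K, ∑ n ∈ Finset.range K, t m n =
      ∑ N ∈ Finset.range K, ∑ mn ∈ Finset.HasAntidiagonal.antidiagonal N, t mn.1 mn.2 := by
  rw [Finset.sum_sigma', Finset.sum_sigma']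
  symm
  refine Finset.sum_bij_ne_zero (fun x _ _ => ⟨x.2.1, x.2.2⟩) ?_ ?_ ?_ ?_
  · rintro ⟨N, m, n⟩ h1 _
    simp only [Finset.mem_sigma, Finset.mem_range, Finset.HasAntidiagonal.mem_antidiagonal] at h1 ⊢
    omega
  · rintro ⟨N, m, n⟩ h1 _ ⟨N', m', n'⟩ h2 _ h3
    simp only [Finset.mem_sigma, Finset.mem_range, Finset.HasAntidiagonal.mem_antidiagonal] at h1 h2
    simp only [Sigma.mk.injEq, heq_eq_eq] at h3
    obtain ⟨rfl, rfl⟩ := h3
    have : N = N' := by omega
    subst this
    rfl
  · rintro ⟨m, n⟩ h1 h2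
    refine ⟨⟨m + n, m, n⟩, ?_, h2, rfl⟩
    simp only [Finset.mem_sigma, Finset.mem_range, Finset.HasAntidiagonal.mem_antidiagonal]
    refine ⟨?_, trivial⟩
    by_contra h3
    exact h2 (h m n (not_lt.mp h3))
  · rintro ⟨N, m, n⟩ h1 _
    rfl

theorem star_assoc (a b c : HahnSeries ℚ B) : star (star a b) c = star a (star b c) := by
  ext q
  set Q : Set ℚ := a.support + b.support + c.support with hQ
  have hp : Q.IsPWO := (a.isPWO_support.add b.isPWO_support).add c.isPWO_support
  obtain ⟨K, hK⟩ := exists_bound hp q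
  have hst : ∀ x y : HahnSeries ℚ B, ∀ i ∈ (star x y).support, ∃ n : ℕ,
      i - n ∈ x.support + y.support := by
    intro x y i hi
    obtain ⟨n, hn⟩ := exists_of_finsum hi
    exact ⟨n, tm_support x y n hn⟩
  -- left side
  have hL0 : ∀ n : ℕ, K ≤ n → q - n ∉ (star a b).support + c.support := by
    rintro n hn ⟨i, hi, k, hk, hik⟩
    obtain ⟨m, hm⟩ := hst a b i hi
    refine hK (n + m) (by omega) ?_
    refine ⟨i - m, hm, k, hk, ?_⟩
    push_cast
    simp only at hik ⊢
    linarith
  have hL : (star (star a b) c).coeff q = ∑ m ∈ Finset.range K, ∑ n ∈ Finset.range K,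
      (d1^[m] (d1^[n] a * dd d2 n b) * dd d2 m c).coeff (q - (m + n : ℕ)) := by
    rw [star_coeff subset_rfl hL0]
    refine Finset.sum_congr rfl fun m _ => ?_
    have h1 : (tm (star a b) c m).coeff (q - m) =
        (d1^[m] (trunc K a b) * dd d2 m c).coeff (q - m) := by
      refine mul_congr_left fun i k hik hk => ?_
      rw [coeff_iter1, coeff_iter1, trunc_coeff, star_coeff subset_rfl]
      rintro n hn h2
      refine hK (m + n) (by omega) ?_
      refine ⟨i - n, h2, k, supp_dd2 c m hk, ?_⟩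
      push_cast
      linarith
    rw [h1, trunc]
    have h2 : d1^[m] (∑ n ∈ Finset.range K, single (n : ℚ) (1 : B) * tm a b n) =
        ∑ n ∈ Finset.range K, single (n : ℚ) (1 : B) * d1^[m] (tm a b n) := by
      have := map_sum (iter (d1 (B := HahnSeries ℚ B)) m)
        (fun n : ℕ => single (n : ℚ) (1 : B) * tm a b n) (Finset.range K)
      simp only [iter_apply] at this
      rw [this]
      exact Finset.sum_congr rfl fun n _ => iter1_single_mul _ _ _
    rw [h2, Finset.sum_mul, coeff_sum]
    refine Finset.sum_congr rfl fun n _ => ?_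
    rw [mul_assoc, coeff_single_mul, one_mul, tm]
    congr 1
    push_cast
    ring
  -- right side
  have hR0 : ∀ n : ℕ, K ≤ n → q - n ∉ a.support + (star b c).support := by
    rintro n hn ⟨i, hi, k, hk, hik⟩
    obtain ⟨m, j, hj, l, hl, hjl⟩ := hst b c k hk
    refine hK (n + m) (by omega) ?_
    refine ⟨i + j, ⟨i, hi, j, hj, rfl⟩, l, hl, ?_⟩
    push_cast
    simp only at hik hjl ⊢
    linarith
  have hR : (star a (star b c)).coeff q = ∑ m ∈ Finset.range K, ∑ n ∈ Finset.range K,
      (d1^[m] a * dd d2 m (d1^[n] b * dd d2 n c)).coeff (q - (m + n : ℕ)) := by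
    rw [star_coeff subset_rfl hR0]
    refine Finset.sum_congr rfl fun m _ => ?_
    have h1 : (tm a (star b c) m).coeff (q - m) =
        (d1^[m] a * dd d2 m (trunc K b c)).coeff (q - m) := by
      refine mul_congr_right fun i k hik hi => ?_
      rw [coeff_dd2, coeff_dd2, trunc_coeff, star_coeff subset_rfl]
      rintro n hn ⟨j, hj, l, hl, hjl⟩
      refine hK (m + n) (by omega) ?_
      refine ⟨i + j, ⟨i, supp_iter1 a m hi, j, hj, rfl⟩, l, hl, ?_⟩
      push_cast
      simp only at hjl ⊢
      linarith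
    rw [h1, trunc, map_sum, Finset.mul_sum, coeff_sum]
    refine Finset.sum_congr rfl fun n _ => ?_
    rw [dd2_single_mul, mul_left_comm, coeff_single_mul, one_mul, tm]
    congr 1
    push_cast
    ring
  have hW1 : ∀ m n : ℕ, (d1^[m] (d1^[n] a * dd d2 n b) * dd d2 m c).support ⊆ Q := fun m n =>
    support_mul_subset.trans (Set.add_subset_add ((supp_iter1 _ m).trans (tm_support a b n))
      (supp_dd2 c m))
  have hW2 : ∀ m n : ℕ, (d1^[m] a * dd d2 m (d1^[n] b * dd d2 n c)).support ⊆ Q := fun m n => by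
    rw [hQ, add_assoc]
    exact support_mul_subset.trans (Set.add_subset_add (supp_iter1 a m)
      ((supp_dd2 _ m).trans (tm_support b c n)))
  rw [hL, hR, regroup, regroup]
  · refine Finset.sum_congr rfl fun N _ => ?_
    have h1 := congrArg (fun x : HahnSeries ℚ B => x.coeff (q - N)) (assoc_id N a b c)
    simp only [coeff_sum] at h1
    have h2 : ∀ W : ℕ → ℕ → HahnSeries ℚ B,
        ∑ mn ∈ Finset.HasAntidiagonal.antidiagonal N,
          (W mn.1 mn.2).coeff (q - (mn.1 + mn.2 : ℕ)) =
        ∑ mn ∈ Finset.HasAntidiagonal.antidiagonal N, (W mn.1 mn.2).coeff (q - N) := by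
      intro W
      refine Finset.sum_congr rfl fun mn hmn => ?_
      rw [Finset.HasAntidiagonal.mem_antidiagonal.mp hmn]
    rw [h2 fun m n => d1^[m] (d1^[n] a * dd d2 n b) * dd d2 m c,
      h2 fun m n => d1^[m] a * dd d2 m (d1^[n] b * dd d2 n c)]
    exact h1
  · intro m n hmn
    by_contra h1
    exact hK (m + n) hmn (hW2 m n h1)
  · intro m n hmn
    by_contra h1
    exact hK (m + n) hmn (hW1 m n h1)

end star

end Pool.Agent.L7h73.AC
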