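import Pool.Agent.L7h73.AC.Star2

/-!
# The star ring

`S B` is the ring of Hahn series with exponents in `ℚ` and coefficients in `B`, with the star
product. `S.cf x q` is the coefficient of `x` at `q`, `S.ext` extensionality, `Ge γ x` says that the
coefficients at exponents less than `γ` vanish.

* `S.amap f`: coefficientwise additive map; `S.amap_mul`: product rules; `S.map φ h`: functoriality.
* `S.D1`, `S.D2`: the coefficientwise derivations of `S B`.
* `S.sg q b`: the series with the only coefficient `b` at `q`; `S.hp γ = S.sg γ 1` is central.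
-/

set_option autoImplicit false
set_option linter.unusedSectionVars false

namespace Pool.Agent.L7h73.AC

universe u v w

open HahnSeries
open scoped Pointwise

attribute [-instance] HahnSeries.powerSeriesAlgebra

section starAPI
variable {B : Type u} [CommRing B] [Algebra ℚ B] [Diff2 B]

theorem star_eq_mul_left {a : HahnSeries ℚ B} (ha : d1 a = 0) (b : HahnSeries ℚ B) :
    star a b = a * b := by
  ext q
  obtain ⟨K, hK, -⟩ := exists_star_coeff a b q
  rw [star_coeff subset_rfl (K := K + 1) (fun n hn => hK n (by omega)), Finset.sum_range_succ']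
  have h : ∀ n : ℕ, tm a b (n + 1) = 0 := by
    intro n
    rw [tm, Function.iterate_succ_apply, ha, iterate_map_zero, zero_mul]
  rw [Finset.sum_eq_zero fun n _ => by rw [h n, coeff_zero], zero_add]
  simp [tm]

theorem star_eq_mul_right (a : HahnSeries ℚ B) {b : HahnSeries ℚ B} (hb : d2 b = 0) :
    star a b = a * b := by
  ext q
  obtain ⟨K, hK, -⟩ := exists_star_coeff a b q
  rw [star_coeff subset_rfl (K := K + 1) (fun n hn => hK n (by omega)), Finset.sum_range_succ']
  have h : ∀ n : ℕ, tm a b (n + 1) = 0 := by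
    intro n
    rw [tm, dd_apply, Function.iterate_succ_apply (f := d2), hb, iterate_map_zero, smul_zero,
      mul_zero]
  rw [Finset.sum_eq_zero fun n _ => by rw [h n, coeff_zero], zero_add]
  simp [tm]

variable {C : Type v} [CommRing C] [Algebra ℚ C] [Diff2 C]

theorem hmap_iter1 (f : B →+ C) (hf : ∀ x, f (d1 x) = d1 (f x)) (n : ℕ) (X : HahnSeries ℚ B) :
    hmap f (d1^[n] X) = d1^[n] (hmap f X) := by
  ext q
  rw [hmap_coeff, coeff_iter1, coeff_iter1, hmap_coeff]
  induction n with
  | zero => rfl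
  | succ n ih => rw [Function.iterate_succ_apply', Function.iterate_succ_apply', hf, ih]

theorem hmap_dd2 (f : B →+ C) (hf : ∀ x, f (d2 x) = d2 (f x)) (n : ℕ) (X : HahnSeries ℚ B) :
    hmap f (dd d2 n X) = dd d2 n (hmap f X) := by
  ext q
  rw [hmap_coeff, coeff_dd2, coeff_dd2, hmap_coeff, dd_apply, dd_apply, map_rat_smul]
  congr 1
  induction n with
  | zero => rfl
  | succ n ih => rw [Function.iterate_succ_apply', Function.iterate_succ_apply', hf, ih]

theorem hmap_star {ι : Type w} (T : Finset ι) (g : B →+ C) (f k : ι → B →+ C)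
    (h : ∀ x y, g (x * y) = ∑ t ∈ T, f t x * k t y) (hf : ∀ t x, f t (d1 x) = d1 (f t x))
    (hk : ∀ t x, k t (d2 x) = d2 (k t x)) (X Y : HahnSeries ℚ B) :
    hmap g (star X Y) = ∑ t ∈ T, star (hmap (f t) X) (hmap (k t) Y) := by
  ext q
  obtain ⟨K, hK, hs⟩ := exists_star_coeff X Y q
  have h1 : ∀ t, (star (hmap (f t) X) (hmap (k t) Y)).coeff q =
      ∑ n ∈ Finset.range K, (tm (hmap (f t) X) (hmap (k t) Y) n).coeff (q - n) := fun t =>
    star_coeff (Set.add_subset_add (hmap_support _ _) (hmap_support _ _)) hK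
  rw [hmap_coeff, hs, map_sum, coeff_sum, Finset.sum_congr rfl fun t _ => h1 t, Finset.sum_comm]
  refine Finset.sum_congr rfl fun n _ => ?_
  rw [← hmap_coeff, tm, hmap_mul T g f k h, coeff_sum]
  refine Finset.sum_congr rfl fun t _ => ?_
  rw [tm, hmap_iter1 (f t) (hf t), hmap_dd2 (k t) (hk t)]

theorem mul_coeff_ge {X Y : HahnSeries ℚ B} {α β : ℚ} (hX : ∀ q < α, X.coeff q = 0)
    (hY : ∀ q < β, Y.coeff q = 0) {q : ℚ} (hq : q < α + β) : (X * Y).coeff q = 0 := by
  rw [coeff_mul]
  refine Finset.sum_eq_zero fun ij hij => ?_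
  rw [Finset.mem_antidiagonal] at hij
  by_cases h1 : ij.1 < α
  · rw [hX _ h1, zero_mul]
  · rw [hY ij.2 (by linarith [hij.2.2]), mul_zero]

theorem mul_coeff_eq {X Y : HahnSeries ℚ B} {α β : ℚ} (hX : ∀ q < α, X.coeff q = 0)
    (hY : ∀ q < β, Y.coeff q = 0) : (X * Y).coeff (α + β) = X.coeff α * Y.coeff β := by
  rw [coeff_mul, Finset.sum_eq_single (α, β)]
  · intro ij hij hne
    rw [Finset.mem_antidiagonal] at hij
    by_cases h1 : ij.1 < α
    · rw [hX _ h1, zero_mul]
    · by_cases h2 : ij.2 < β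
      · rw [hY _ h2, mul_zero]
      · exfalso
        apply hne
        have := hij.2.2
        ext <;> simp <;> linarith
  · intro h
    rw [Finset.mem_antidiagonal] at h
    by_cases h1 : X.coeff α = 0
    · rw [h1, zero_mul]
    · by_cases h2 : Y.coeff β = 0
      · rw [h2, mul_zero]
      · exact absurd ⟨h1, h2, rfl⟩ h

theorem star_coeff_le {X Y : HahnSeries ℚ B} {α β : ℚ} (hX : ∀ q < α, X.coeff q = 0)
    (hY : ∀ q < β, Y.coeff q = 0) {q : ℚ} (hq : q ≤ α + β) :
    (star X Y).coeff q = (X * Y).coeff q := by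
  obtain ⟨K, hK, -⟩ := exists_star_coeff X Y q
  rw [star_coeff subset_rfl (K := K + 1) (fun n hn => hK n (by omega)), Finset.sum_range_succ']
  have h : ∀ n : ℕ, (tm X Y (n + 1)).coeff (q - (n + 1 : ℕ)) = 0 := by
    intro n
    refine mul_coeff_ge (α := α) (β := β) (fun r hr => ?_) (fun r hr => ?_) ?_
    · rw [coeff_iter1, hX r hr, iterate_map_zero]
    · rw [coeff_dd2, hY r hr, map_zero]
    · push_cast
      have : (0 : ℚ) ≤ n := by positivity
      linarith
  rw [Finset.sum_eq_zero fun n _ => h n]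
  simp [tm]

end starAPI

/-- the star ring -/
def S (B : Type u) [CommRing B] : Type u := HahnSeries ℚ B

namespace S
section basic
variable {B : Type u} [CommRing B]

noncomputable instance : AddCommGroup (S B) := inferInstanceAs (AddCommGroup (HahnSeries ℚ B))

/-- the underlying Hahn series -/
noncomputable def h : S B ≃+ HahnSeries ℚ B := AddEquiv.refl _

/-- the coefficients -/
noncomputable def cf (x : S B) (q : ℚ) : B := (h x).coeff q

@[ext] theorem ext {x y : S B} (hxy : ∀ q, cf x q = cf y q) : x = y :=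
  HahnSeries.ext (funext hxy)

@[simp] theorem cf_zero (q : ℚ) : cf (0 : S B) q = 0 := rfl
@[simp] theorem cf_add (x y : S B) (q : ℚ) : cf (x + y) q = cf x q + cf y q := rfl
@[simp] theorem cf_neg (x : S B) (q : ℚ) : cf (-x) q = - cf x q := rfl
@[simp] theorem cf_sub (x y : S B) (q : ℚ) : cf (x - y) q = cf x q - cf y q := by
  rw [sub_eq_add_neg, cf_add, cf_neg, sub_eq_add_neg]

/-- coefficients as additive map -/
noncomputable def cfHom (q : ℚ) : S B →+ B where
  toFun x := cf x q
  map_zero' := rfl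
  map_add' _ _ := rfl

@[simp] theorem cf_sum {ι : Type w} (s : Finset ι) (f : ι → S B) (q : ℚ) :
    cf (∑ i ∈ s, f i) q = ∑ i ∈ s, cf (f i) q := map_sum (cfHom q) f s

/-- the series with the coefficient `b` at `q` -/
noncomputable def sg (q : ℚ) (b : B) : S B := h.symm (single q b)

theorem cf_sg (q r : ℚ) (b : B) : cf (sg q b) r = if r = q then b else 0 := by
  change (single q b).coeff r = _
  rw [coeff_single]
  split_ifs <;> rfl

@[simp] theorem cf_sg_same (q : ℚ) (b : B) : cf (sg q b) q = b := by rw [cf_sg, if_pos rfl]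

theorem sg_add (q : ℚ) (b c : B) : sg q (b + c) = sg q b + sg q c := by
  ext r
  rw [cf_add, cf_sg, cf_sg, cf_sg]
  split_ifs <;> simp

@[simp] theorem sg_zero (q : ℚ) : sg q (0 : B) = 0 := by
  ext r
  rw [cf_sg, cf_zero, ite_self]

/-- the coefficients at exponents less than `γ` vanish -/
def Ge (γ : ℚ) (x : S B) : Prop := ∀ q < γ, cf x q = 0

variable {C : Type v} [CommRing C]

/-- coefficientwise additive map -/
noncomputable def amap (f : B →+ C) : S B →+ S C := h.symm.toAddMonoidHom.comp ((hmap f).comp h.toAddMonoidHom)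

@[simp] theorem cf_amap (f : B →+ C) (x : S B) (q : ℚ) : cf (amap f x) q = f (cf x q) := rfl

@[simp] theorem amap_sg (f : B →+ C) (q : ℚ) (b : B) : amap f (sg q b) = sg q (f b) := by
  ext r
  rw [cf_amap, cf_sg, cf_sg]
  split_ifs <;> simp

end basic

section ring
variable {B : Type u} [CommRing B] [Algebra ℚ B] [Diff2 B]

noncomputable instance : Mul (S B) := ⟨fun a b => h.symm (star (h a) (h b))⟩
noncomputable instance : One (S B) := ⟨sg 0 1⟩

theorem mul_def (a b : S B) : a * b = h.symm (star (h a) (h b)) := rfl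
theorem one_def : (1 : S B) = sg 0 1 := rfl
theorem h_mul (a b : S B) : h (a * b) = star (h a) (h b) := rfl

theorem d1_single (q : ℚ) (b : B) : d1 (single q b) = single q (d1 b) := hmap_single _ _ _
theorem d2_single (q : ℚ) (b : B) : d2 (single q b) = single q (d2 b) := hmap_single _ _ _

theorem sg_mul {q : ℚ} {c : B} (hc : d1 c = 0) (x : S B) :
    h (sg q c * x) = single q c * h x := by
  rw [h_mul, sg]
  refine star_eq_mul_left ?_ _
  change d1 (single q c) = 0
  rw [d1_single, hc, single_eq_zero]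

theorem mul_sg {q : ℚ} {c : B} (hc : d2 c = 0) (x : S B) :
    h (x * sg q c) = h x * single q c := by
  rw [h_mul, sg]
  refine star_eq_mul_right _ ?_
  change d2 (single q c) = 0
  rw [d2_single, hc, single_eq_zero]

noncomputable instance instRing : Ring (S B) :=
  { (inferInstance : AddCommGroup (S B)) with
    mul := (· * ·)
    one := 1
    left_distrib := fun a b c => h.injective (by rw [h_mul, map_add, star_add_right]; rfl)
    right_distrib := fun a b c => h.injective (by rw [h_mul, map_add, star_add_left]; rfl)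
    zero_mul := fun a => h.injective (by
      rw [h_mul, map_zero]
      exact (star_eq_mul_left (by rw [map_zero]) _).trans (zero_mul _))
    mul_zero := fun a => h.injective (by
      rw [h_mul, map_zero]
      exact (star_eq_mul_right _ (by rw [map_zero])).trans (mul_zero _))
    mul_assoc := fun a b c => h.injective (star_assoc _ _ _)
    one_mul := fun a => h.injective (by
      rw [one_def, sg_mul d1_one]
      exact one_mul _)
    mul_one := fun a => h.injective (by
      rw [one_def, mul_sg d2_one]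
      exact mul_one _) }

theorem Ge.mul {α β : ℚ} {x y : S B} (hx : Ge α x) (hy : Ge β y) : Ge (α + β) (x * y) := by
  intro q hq
  exact (star_coeff_le hx hy hq.le).trans (mul_coeff_ge hx hy hq)

theorem cf_mul_eq {α β : ℚ} {x y : S B} (hx : Ge α x) (hy : Ge β y) :
    cf (x * y) (α + β) = cf x α * cf y β :=
  (star_coeff_le hx hy le_rfl).trans (mul_coeff_eq hx hy)

theorem cf_sg_mul {γ : ℚ} {c : B} (hc : d1 c = 0) (x : S B) (q : ℚ) :
    cf (sg γ c * x) q = c * cf x (q - γ) := by
  rw [cf, sg_mul hc, coeff_single_mul]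
  rfl

theorem cf_mul_sg {γ : ℚ} {c : B} (hc : d2 c = 0) (x : S B) (q : ℚ) :
    cf (x * sg γ c) q = cf x (q - γ) * c := by
  rw [cf, mul_sg hc, coeff_mul_single]
  rfl

theorem sg_comm {γ : ℚ} {c : B} (h1 : d1 c = 0) (h2 : d2 c = 0) (x : S B) :
    sg γ c * x = x * sg γ c := by
  ext q
  rw [cf_sg_mul h1, cf_mul_sg h2, mul_comm]

/-- the central element with the only coefficient `1` at `γ` -/
noncomputable def hp (γ : ℚ) : S B := sg γ 1

@[simp] theorem cf_hp_mul (γ : ℚ) (x : S B) (q : ℚ) : cf (hp γ * x) q = cf x (q - γ) := by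
  rw [hp, cf_sg_mul d1_one, one_mul]

@[simp] theorem cf_mul_hp (γ : ℚ) (x : S B) (q : ℚ) : cf (x * hp γ) q = cf x (q - γ) := by
  rw [hp, cf_mul_sg d2_one, mul_one]

theorem hp_comm (γ : ℚ) (x : S B) : hp γ * x = x * hp γ := sg_comm d1_one d2_one x

theorem hp_add (γ δ : ℚ) : (hp (γ + δ) : S B) = hp γ * hp δ := by
  ext q
  rw [cf_hp_mul, hp, hp, cf_sg, cf_sg]
  congr 1
  exact propext ⟨fun h => by linarith, fun h => by linarith⟩

@[simp] theorem hp_zero : (hp 0 : S B) = 1 := rfl

variable {C : Type v} [CommRing C] [Algebra ℚ C] [Diff2 C]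

/-- product rules for coefficientwise maps -/
theorem amap_mul {ι : Type w} (T : Finset ι) (g : B →+ C) (f k : ι → B →+ C)
    (h : ∀ x y, g (x * y) = ∑ t ∈ T, f t x * k t y) (hf : ∀ t x, f t (d1 x) = d1 (f t x))
    (hk : ∀ t x, k t (d2 x) = d2 (k t x)) (X Y : S B) :
    amap g (X * Y) = ∑ t ∈ T, amap (f t) X * amap (k t) Y :=
  hmap_star T g f k h hf hk X Y

/-- functoriality -/
noncomputable def map (φ : B →+* C) (hφ : IsDiff φ) : S B →+* S C :=
  { amap φ.toAddMonoidHom with
    map_one' := by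
      change amap φ.toAddMonoidHom (sg 0 1) = sg 0 1
      rw [amap_sg]
      exact congrArg _ (map_one φ)
    map_mul' := fun X Y => by
      have := amap_mul (Finset.univ : Finset Unit) φ.toAddMonoidHom (fun _ => φ.toAddMonoidHom)
        (fun _ => φ.toAddMonoidHom) (fun x y => by simp) (fun _ x => hφ.d1 x) (fun _ x => hφ.d2 x)
        X Y
      simpa using this }

@[simp] theorem cf_map (φ : B →+* C) (hφ : IsDiff φ) (x : S B) (q : ℚ) :
    cf (map φ hφ x) q = φ (cf x q) := rfl

@[simp] theorem map_sg (φ : B →+* C) (hφ : IsDiff φ) (q : ℚ) (b : B) :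
    map φ hφ (sg q b) = sg q (φ b) := amap_sg _ _ _

/-- the derivations of the star ring -/
noncomputable def D1 : S B →+ S B := amap d1
/-- the derivations of the star ring -/
noncomputable def D2 : S B →+ S B := amap d2

@[simp] theorem cf_D1 (x : S B) (q : ℚ) : cf (D1 x) q = d1 (cf x q) := rfl
@[simp] theorem cf_D2 (x : S B) (q : ℚ) : cf (D2 x) q = d2 (cf x q) := rfl

/-- a derivation over `φ` which commutes with `d1`, `d2` extends to the star rings -/
theorem amap_leib {φ : B →+* C} (hφ : IsDiff φ) (δ : B →+ C)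
    (hδ : ∀ x y, δ (x * y) = δ x * φ y + φ x * δ y) (h1 : ∀ x, δ (d1 x) = d1 (δ x))
    (h2 : ∀ x, δ (d2 x) = d2 (δ x)) (X Y : S B) :
    amap δ (X * Y) = amap δ X * map φ hφ Y + map φ hφ X * amap δ Y := by
  have := amap_mul (Finset.univ : Finset Bool) δ
    (fun t => if t then δ else φ.toAddMonoidHom) (fun t => if t then φ.toAddMonoidHom else δ)
    (fun x y => by simp [hδ])
    (fun t x => by cases t; exacts [hφ.d1 x, h1 x]) (fun t x => by cases t; exacts [h2 x, hφ.d2 x])
    X Y
  rw [this]
  simp only [Fintype.univ_bool, Finset.mem_singleton, Bool.true_eq_false, not_false_eq_true,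
    Finset.sum_insert, Finset.sum_singleton, if_true, Bool.false_eq_true, if_false]
  rfl

theorem D1_mul (x y : S B) : D1 (x * y) = D1 x * y + x * D1 y :=
  amap_leib IsDiff.id d1 leib1 (fun _ => rfl) Diff2.comm x y

theorem D2_mul (x y : S B) : D2 (x * y) = D2 x * y + x * D2 y :=
  amap_leib IsDiff.id d2 leib2 (fun x => (Diff2.comm x).symm) (fun _ => rfl) x y

end ring

section order
variable {B : Type u} [CommRing B]

theorem Ge.mono {α β : ℚ} (h : β ≤ α) {x : S B} (hx : Ge α x) : Ge β x :=
  fun q hq => hx q (hq.trans_le h)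

theorem Ge.add {α : ℚ} {x y : S B} (hx : Ge α x) (hy : Ge α y) : Ge α (x + y) := fun q hq => by
  rw [cf_add, hx q hq, hy q hq, add_zero]

theorem Ge.neg {α : ℚ} {x : S B} (hx : Ge α x) : Ge α (-x) := fun q hq => by
  rw [cf_neg, hx q hq, neg_zero]

theorem Ge.sub {α : ℚ} {x y : S B} (hx : Ge α x) (hy : Ge α y) : Ge α (x - y) := fun q hq => by
  rw [cf_sub, hx q hq, hy q hq, sub_zero]

theorem Ge.zero (α : ℚ) : Ge α (0 : S B) := fun _ _ => rfl

theorem Ge.sg {α β : ℚ} (h : α ≤ β) (b : B) : Ge α (sg β b) := fun q hq => by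
  rw [cf_sg, if_neg (hq.trans_le h).ne]

theorem Ge.amap {C : Type v} [CommRing C] (f : B →+ C) {α : ℚ} {x : S B} (hx : Ge α x) :
    Ge α (amap f x) := fun q hq => by rw [cf_amap, hx q hq, map_zero]

theorem exists_order {x : S B} (hx : x ≠ 0) : ∃ α, Ge α x ∧ cf x α ≠ 0 := by
  have hx' : h x ≠ 0 := fun h0 => hx (h.injective (h0.trans (map_zero h).symm))
  refine ⟨(h x).order, fun q hq => coeff_eq_zero_of_lt_order hq, ?_⟩
  intro h0
  exact hx' (coeff_order_eq_zero.mp h0)

theorem exists_ge (x : S B) : ∃ α, Ge α x := by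
  by_cases hx : x = 0
  · exact ⟨0, hx ▸ Ge.zero 0⟩
  · obtain ⟨α, h, -⟩ := exists_order hx
    exact ⟨α, h⟩

/-- a series with given coefficients -/
noncomputable def mk (f : ℚ → B) (hf : (Function.support f).IsPWO) : S B := h.symm ⟨f, hf⟩

@[simp] theorem cf_mk (f : ℚ → B) (hf : (Function.support f).IsPWO) (q : ℚ) :
    cf (mk f hf) q = f q := rfl

/-- the support of a series -/
theorem isPWO_support (x : S B) : (Function.support (cf x)).IsPWO := (h x).isPWO_support

end order

instance instNoZeroDivisors {B : Type u} [CommRing B] [Algebra ℚ B] [Diff2 B] [NoZeroDivisors B] :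
    NoZeroDivisors (S B) where
  eq_zero_or_eq_zero_of_mul_eq_zero := by
    intro x y hxy
    by_contra hcon
    push Not at hcon
    obtain ⟨α, h1, h2⟩ := exists_order hcon.1
    obtain ⟨β, h3, h4⟩ := exists_order hcon.2
    have h5 := cf_mul_eq h1 h3
    rw [hxy, cf_zero] at h5
    exact mul_ne_zero h2 h4 h5.symm

instance instNontrivial {B : Type u} [CommRing B] [Algebra ℚ B] [Diff2 B] [Nontrivial B] :
    Nontrivial (S B) := ⟨⟨1, 0, fun h => by
      have := congrArg (fun x : S B => cf x 0) h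
      simp only [one_def, cf_sg_same, cf_zero] at this
      exact one_ne_zero this⟩⟩

/-- spherical completeness -/
theorem ball {B : Type u} [CommRing B] (ω : S B → WithTop ℚ)
    (h1 : ∀ x y, (∀ q : ℚ, (q : WithTop ℚ) < ω x → cf y q = cf x q) → ω x ≤ ω y)
    (h2 : ∀ x, ω x ≠ ⊤ → ∃ y, (∀ q : ℚ, (q : WithTop ℚ) < ω x → cf y q = cf x q) ∧ ω x < ω y) :
    ∃ x, ω x = ⊤ := by
  classical
  let r : S B → S B → Prop := fun x y => ∀ q : ℚ, (q : WithTop ℚ) < ω x → cf y q = cf x q
  have htrans : ∀ {a b c : S B}, r a b → r b c → r a c := by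
    intro a b c hab hbc q hq
    rw [hbc q (hq.trans_le (h1 a b hab)), hab q hq]
  have hch : ∀ c : Set (S B), IsChain r c → ∃ ub, ∀ a ∈ c, r a ub := by
    intro c hc
    let f : ℚ → B := fun q => if hq : ∃ x ∈ c, (q : WithTop ℚ) < ω x then cf hq.choose q else 0
    have hf : ∀ x ∈ c, ∀ q : ℚ, (q : WithTop ℚ) < ω x → f q = cf x q := by
      intro x hx q hq
      have hq' : ∃ x ∈ c, (q : WithTop ℚ) < ω x := ⟨x, hx, hq⟩
      simp only [f, dif_pos hq']
      obtain ⟨h3, h4⟩ := hq'.choose_spec
      by_cases hne : hq'.choose = x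
      · rw [hne]
      · rcases hc h3 hx hne with h5 | h5
        · exact (h5 q h4).symm
        · exact h5 q hq
    have hsupp : (Function.support f).IsPWO := by
      rw [Set.isPWO_iff_isWF, Set.isWF_iff_no_descending_seq]
      intro g hg hmem
      have h3 : f (g 0) ≠ 0 := hmem 0
      have h4 : ∃ x ∈ c, (g 0 : WithTop ℚ) < ω x := by
        by_contra h5
        exact h3 (dif_neg h5)
      obtain ⟨x, hx, h5⟩ := h4
      have h6 := (isPWO_support x).isWF
      rw [Set.isWF_iff_no_descending_seq] at h6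
      refine h6 g hg fun n => ?_
      have h7 := hmem n
      have h8 : g n ≤ g 0 := hg.antitone (Nat.zero_le n)
      have h9 : (g n : WithTop ℚ) < ω x := lt_of_le_of_lt (WithTop.coe_le_coe.mpr h8) h5
      rw [Function.mem_support] at h7 ⊢
      rwa [← hf x hx _ h9]
    exact ⟨mk f hsupp, fun x hx q hq => hf x hx q hq⟩
  obtain ⟨m, hm⟩ := exists_maximal_of_chains_bounded hch htrans
  refine ⟨m, ?_⟩
  by_contra hne
  obtain ⟨y, hy1, hy2⟩ := h2 m hne
  exact absurd (h1 y m (hm y hy1)) (not_le.mpr hy2)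

end S

end Pool.Agent.L7h73.AC
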